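import Pool.Agent.H35.KM.Defs
import Pool.Agent.H91.EHA.GMain

/-!
# Bombieri-Vinogradov at level `x^{1/50}`, arbitrary reduced classes

`ext_ints` of KF (Ext.lean) for an arbitrary reduced class `b d` for every `d`, and with `x^{1/50}`;
the same proof: `classes_sum (1/2) (1/2) _ _ (c+1)` at `y` with the selection `{b q}` if
`x ≤ y²` (`x^{1/50} ≤ y^{1/25}`), trivial bound otherwise (`x^{1/50 + 1/2} ≤ x^{3/4}`).
-/

set_option autoImplicit false

namespace Pool.Agent.H35.KM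

open Finset
open Pool.Agent.H91.EHA (err)
open Pool.Agent.H80.KF

private lemma bvs_err_triv (y d : ℕ) (hd : 1 ≤ d) (a : ZMod d) : |err y d a| ≤ y := by
  unfold err
  have h1 : (((Icc 1 y).filter (fun p : ℕ => Nat.Prime p ∧ ((p : ZMod d) = a))).card : ℝ) ≤ y := by
    have : ((Icc 1 y).filter (fun p : ℕ => Nat.Prime p ∧ ((p : ZMod d) = a))).card ≤ y := by
      refine (card_filter_le _ _).trans ?_
      simp
    exact_mod_cast this
  have h2 : (Nat.primeCounting y : ℝ) / (Nat.totient d : ℝ) ≤ y := by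
    have h3 : (1 : ℝ) ≤ (Nat.totient d : ℝ) := by
      exact_mod_cast Nat.totient_pos.2 hd
    have h4 : (Nat.primeCounting y : ℝ) ≤ y := by
      have : Nat.primeCounting y ≤ y := by
        rw [Nat.primeCounting, Nat.primeCounting', Nat.count_eq_card_filter_range]
        calc ((range (y + 1)).filter Nat.Prime).card ≤ (Icc 1 y).card := by
              apply card_le_card
              intro p hp
              rw [mem_filter, mem_range] at hp
              rw [mem_Icc]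
              exact ⟨hp.2.one_le, by omega⟩
          _ = y := by simp
      exact_mod_cast this
    calc (Nat.primeCounting y : ℝ) / (Nat.totient d : ℝ) ≤ (Nat.primeCounting y : ℝ) :=
          div_le_self (Nat.cast_nonneg _) h3
      _ ≤ y := h4
  have h3 : 0 ≤ (Nat.primeCounting y : ℝ) / (Nat.totient d : ℝ) := by positivity
  rw [abs_le]
  constructor
  · have : (0 : ℝ) ≤ (((Icc 1 y).filter (fun p : ℕ => Nat.Prime p ∧ ((p : ZMod d) = a))).card : ℝ) :=
      Nat.cast_nonneg _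
    linarith
  · linarith

private lemma bvs_ev (c : ℕ) : ∃ x0 : ℕ, ∀ x : ℕ, x0 ≤ x →
    (x : ℝ) ^ ((3 : ℝ) / 4) ≤ x / Real.log x ^ c ∧ 2 ≤ Real.log x := by
  have h1 : (fun x : ℝ => Real.log x ^ (c : ℝ)) =o[Filter.atTop] fun x : ℝ => x ^ ((1 : ℝ) / 4) :=
    isLittleO_log_rpow_rpow_atTop (c : ℝ) (by norm_num)
  have h2 := h1.bound (c := 1) one_pos
  have h3 : ∀ᶠ x : ℝ in Filter.atTop, 2 ≤ Real.log x := Real.tendsto_log_atTop.eventually_ge_atTop 2
  have h4 : ∀ᶠ x : ℕ in Filter.atTop, (x : ℝ) ^ ((3 : ℝ) / 4) ≤ x / Real.log x ^ c ∧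
      2 ≤ Real.log x := by
    have h5 := tendsto_natCast_atTop_atTop (R := ℝ) |>.eventually (h2.and (h3.and (Filter.eventually_gt_atTop (0:ℝ))))
    filter_upwards [h5] with x hx
    obtain ⟨h6, h7, h8⟩ := hx
    refine ⟨?_, h7⟩
    rw [Real.rpow_natCast, Real.norm_of_nonneg (by positivity), one_mul,
      Real.norm_of_nonneg (by positivity)] at h6
    rw [le_div_iff₀ (by positivity)]
    calc (x : ℝ) ^ ((3 : ℝ) / 4) * Real.log x ^ c ≤ (x : ℝ) ^ ((3 : ℝ) / 4) * (x : ℝ) ^ ((1 : ℝ) / 4) :=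
          mul_le_mul_of_nonneg_left h6 (by positivity)
      _ = x := by
          rw [← Real.rpow_add h8]
          norm_num
  exact Filter.eventually_atTop.1 h4

theorem bvs (c : ℕ) : ∃ x0 : ℕ, ∀ x : ℕ, x0 ≤ x → ∀ y : ℕ, y ≤ x →
    ∀ b : (d : ℕ) → ZMod d, (∀ d, IsUnit (b d)) →
    ∑ d ∈ Icc 1 (RR x), |err y d (b d)| ≤ x / Real.log x ^ c := by
  obtain ⟨y1, hy1⟩ := Pool.Agent.H91.EHA.classes_sum (1 / 2) (1 / 2) (by norm_num) (by norm_num) (c + 1)
  obtain ⟨x2, hx2⟩ := bvs_ev c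
  have hev : ∀ᶠ x : ℕ in Filter.atTop, (2 : ℝ) ^ (c + 1) ≤ Real.log x :=
    (Real.tendsto_log_atTop.comp tendsto_natCast_atTop_atTop).eventually_ge_atTop _
  obtain ⟨x3, hx3⟩ := Filter.eventually_atTop.1 hev
  refine ⟨max ((y1 + 1) ^ 2) (max x2 (max x3 3)), fun x hx y hy b0 hb0 => ?_⟩
  unfold RR
  have e1 : (y1 + 1) ^ 2 ≤ x := le_trans (le_max_left _ _) hx
  have e2 : x2 ≤ x := le_trans (le_trans (le_max_left _ _) (le_max_right _ _)) hx
  have e3 : x3 ≤ x :=
    le_trans (le_trans (le_trans (le_max_left _ _) (le_max_right _ _)) (le_max_right _ _)) hx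
  have e4 : 3 ≤ x :=
    le_trans (le_trans (le_trans (le_max_right _ _) (le_max_right _ _)) (le_max_right _ _)) hx
  obtain ⟨hA, hlog2⟩ := hx2 x e2
  have hlog := hx3 x e3
  have hx1 : (1 : ℝ) ≤ x := by exact_mod_cast (by omega : 1 ≤ x)
  have hx0 : (0 : ℝ) < x := by linarith
  have hR : ((⌊(x : ℝ) ^ ((1 : ℝ) / 50)⌋₊ : ℕ) : ℝ) ≤ (x : ℝ) ^ ((1 : ℝ) / 50) :=
    Nat.floor_le (by positivity)
  by_cases hxy : x ≤ y ^ 2
  · have hy1' : y1 ≤ y := by
      by_contra hcon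
      push Not at hcon
      have : y ^ 2 ≤ y1 ^ 2 := Nat.pow_le_pow_left hcon.le 2
      nlinarith
    have hyR : (x : ℝ) ≤ (y : ℝ) ^ 2 := by exact_mod_cast hxy
    have hy0 : (0 : ℝ) < y := by
      rcases Nat.eq_zero_or_pos y with h | h
      · subst h
        simp at hxy
        omega
      · exact_mod_cast h
    have hy1r : (1 : ℝ) ≤ y := by
      have : 1 ≤ y := by exact_mod_cast hy0
      exact_mod_cast this
    have h1 := hy1 y hy1' 1 (fun d => {b0 d}) le_rfl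
      (by
        intro q
        simp)
      (by
        intro q b hb
        rw [mem_singleton] at hb
        rw [hb]
        exact hb0 q)
    have h3 : ∑ d ∈ Icc 1 ⌊(x : ℝ) ^ ((1 : ℝ) / 50)⌋₊, |err y d (b0 d)| ≤
        ∑ q ∈ (Icc 1 ⌊(y : ℝ) ^ ((1 : ℝ) / 2)⌋₊).filter
          (fun q : ℕ => (q : ℝ) ^ 2 ≤ 1 * (y : ℝ) ^ ((1 : ℝ) - 1 / 2)),
        ∑ b ∈ ({b0 q} : Finset (ZMod q)), |err y q b| := by
      have h4 : ∀ d ∈ Icc 1 ⌊(x : ℝ) ^ ((1 : ℝ) / 50)⌋₊, |err y d (b0 d)| =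
          ∑ b ∈ ({b0 d} : Finset (ZMod d)), |err y d b| := by
        intro d _
        rw [sum_singleton]
      rw [sum_congr rfl h4]
      apply sum_le_sum_of_subset_of_nonneg
      · intro d hd
        rw [mem_Icc] at hd
        have hd1 : (d : ℝ) ≤ (x : ℝ) ^ ((1 : ℝ) / 50) :=
          le_trans (by exact_mod_cast hd.2) hR
        have hd2 : (d : ℝ) ≤ (y : ℝ) ^ ((1 : ℝ) / 25) := by
          refine hd1.trans ?_
          calc (x : ℝ) ^ ((1 : ℝ) / 50) ≤ ((y : ℝ) ^ 2) ^ ((1 : ℝ) / 50) :=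
                Real.rpow_le_rpow hx0.le hyR (by norm_num)
            _ = (y : ℝ) ^ ((1 : ℝ) / 25) := by
                rw [← Real.rpow_natCast, ← Real.rpow_mul hy0.le]
                norm_num
        rw [mem_filter, mem_Icc]
        refine ⟨⟨hd.1, Nat.le_floor (hd2.trans
          (Real.rpow_le_rpow_of_exponent_le hy1r (by norm_num)))⟩, ?_⟩
        rw [one_mul]
        calc (d : ℝ) ^ 2 ≤ ((y : ℝ) ^ ((1 : ℝ) / 25)) ^ 2 :=
              pow_le_pow_left₀ (Nat.cast_nonneg _) hd2 2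
          _ = (y : ℝ) ^ ((2 : ℝ) / 25) := by
              rw [← Real.rpow_natCast, ← Real.rpow_mul hy0.le]
              norm_num
          _ ≤ (y : ℝ) ^ ((1 : ℝ) - 1 / 2) :=
              Real.rpow_le_rpow_of_exponent_le hy1r (by norm_num)
      · intro q _ _
        exact sum_nonneg fun b _ => abs_nonneg _
    refine h3.trans (h1.trans ?_)
    rw [one_mul]
    have hly : Real.log x ≤ 2 * Real.log y := by
      have h5 := Real.log_le_log hx0 hyR
      rw [Real.log_pow] at h5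
      exact_mod_cast h5
    have hly0 : 0 < Real.log y := by linarith
    have hlx0 : 0 < Real.log x := by linarith
    have hyx : (y : ℝ) ≤ x := by exact_mod_cast hy
    have h6 : Real.log x ^ (c + 1) ≤ 2 ^ (c + 1) * Real.log y ^ (c + 1) := by
      rw [← mul_pow]
      exact pow_le_pow_left₀ hlx0.le hly _
    rw [div_le_div_iff₀ (by positivity) (by positivity)]
    have h7 : Real.log x ^ c ≤ Real.log y ^ (c + 1) := by
      have h8 : Real.log x ^ c * Real.log x ≤ Real.log x * Real.log y ^ (c + 1) := by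
        calc Real.log x ^ c * Real.log x = Real.log x ^ (c + 1) := (pow_succ _ _).symm
          _ ≤ 2 ^ (c + 1) * Real.log y ^ (c + 1) := h6
          _ ≤ Real.log x * Real.log y ^ (c + 1) :=
              mul_le_mul_of_nonneg_right hlog (by positivity)
      nlinarith
    exact mul_le_mul hyx h7 (by positivity) hx0.le
  · push Not at hxy
    have hyR : (y : ℝ) ≤ (x : ℝ) ^ ((1 : ℝ) / 2) := by
      have h5 : ((y : ℝ)) ^ 2 ≤ x := by exact_mod_cast hxy.le
      calc (y : ℝ) = ((y : ℝ) ^ 2) ^ ((1 : ℝ) / 2) := by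
            rw [← Real.rpow_natCast, ← Real.rpow_mul (Nat.cast_nonneg _)]
            norm_num
        _ ≤ (x : ℝ) ^ ((1 : ℝ) / 2) := Real.rpow_le_rpow (by positivity) h5 (by norm_num)
    have h1 : ∀ d ∈ Icc 1 ⌊(x : ℝ) ^ ((1 : ℝ) / 50)⌋₊,
        |err y d (b0 d)| ≤ (x : ℝ) ^ ((1 : ℝ) / 2) := by
      intro d hd
      rw [mem_Icc] at hd
      exact (bvs_err_triv y d hd.1 _).trans hyR
    refine (sum_le_card_nsmul _ _ _ h1).trans ?_
    rw [nsmul_eq_mul]
    have h2 : (((Icc 1 ⌊(x : ℝ) ^ ((1 : ℝ) / 50)⌋₊).card : ℕ) : ℝ) ≤ (x : ℝ) ^ ((1 : ℝ) / 50) := by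
      refine le_trans ?_ hR
      rw [Nat.card_Icc]
      simp
    calc _ ≤ (x : ℝ) ^ ((1 : ℝ) / 50) * (x : ℝ) ^ ((1 : ℝ) / 2) :=
          mul_le_mul_of_nonneg_right h2 (by positivity)
      _ = (x : ℝ) ^ ((1 : ℝ) / 50 + 1 / 2) := (Real.rpow_add hx0 _ _).symm
      _ ≤ (x : ℝ) ^ ((3 : ℝ) / 4) := Real.rpow_le_rpow_of_exponent_le hx1 (by norm_num)
      _ ≤ _ := hA

end Pool.Agent.H35.KM
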