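import Pool.Agent.H35.KM.Defs
import Pool.Agent.H80.KF.CKc
import Pool.Agent.H80.KF.CrR
import Pool.Agent.H80.KF.Gram
import Pool.Agent.H92.EH3.DivBound

/-!
# Different residues are nearly orthogonal, with a better exponent for smaller moduli

`cross` of KF (Cross.lean) with `R = ⌊x^{1/50}⌋` and `Q ≤ x^{101/200 - κ}`; the same proof (copy the
private lemmas `cross_n0`, `cross_entry`; `cross_num` has to be redone).  `ε₀ = 1/200 - κ > 0`.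
`xk_bound`: `100 Q^{99/50} ≤ 100 x^{0.9999 - 1.98 κ}`, and
`1 - 2κ - ε₀/60 - 0.9999 + 1.98 κ = ε₀/50 - ε₀/60 = ε₀/300 > 0`.  `cross_ram`: `100 x τ(|h|)/R`,
`R ≥ x^{1/50}/2`, `τ(|h|) ≤ C x^{1/1000}` (`div_bound`), `2κ + ε₀/60 < 1/100 + 1/1000`.
-/

set_option autoImplicit false

namespace Pool.Agent.H35.KM

open Finset
open Pool.Agent.H80.KF

/-- solution of two congruences -/
private theorem Crs_n0 (a a' : ℤ) : ∃ n0 : ℕ → ℕ → ℤ, ∀ q q' : ℕ,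
    ((Nat.gcd q q' : ℕ) : ℤ) ∣ a' - a → (q : ℤ) ∣ n0 q q' - a ∧ (q' : ℤ) ∣ n0 q q' - a' := by
  classical
  have h : ∀ q q' : ℕ, ∃ n0 : ℤ, ((Nat.gcd q q' : ℕ) : ℤ) ∣ a' - a →
      (q : ℤ) ∣ n0 - a ∧ (q' : ℤ) ∣ n0 - a' := by
    intro q q'
    by_cases hd : ((Nat.gcd q q' : ℕ) : ℤ) ∣ a' - a
    · obtain ⟨t, ht⟩ := hd
      have hb := Nat.gcd_eq_gcd_ab q q'
      refine ⟨a + q * Nat.gcdA q q' * t, fun _ => ⟨?_, ?_⟩⟩
      · exact ⟨Nat.gcdA q q' * t, by ring⟩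
      · refine ⟨-(Nat.gcdB q q' * t), ?_⟩
        rw [hb] at ht
        linear_combination -ht
    · exact ⟨0, fun h => absurd h hd⟩
  choose n0 hn0 using h
  exact ⟨n0, hn0⟩

/-- one Gram entry -/
private theorem Crs_entry (x J R q q' : ℕ) (hx : 1 ≤ x) (hJ : 1 ≤ J) (hq : 1 ≤ q) (hq' : 1 ≤ q')
    (hdiv : ∀ m, 1 ≤ m → m ≤ q * q' → m ∣ 2 * x * J) (h1 : q * R ≤ 2 * x) (h2 : q' * R ≤ 2 * x)
    (h3 : R * R ≤ 2 * x) (a a' : ℤ) (n0 : ℕ → ℕ → ℤ)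
    (hn0 : ((Nat.gcd q q' : ℕ) : ℤ) ∣ a' - a →
      (q : ℤ) ∣ n0 q q' - a ∧ (q' : ℤ) ∣ n0 q q' - a') :
    ((∑ n ∈ RW x J, ww x J n * uu R q a n * uu R q' a' n : ℝ) : ℂ) =
      (if ((Nat.gcd q q' : ℕ) : ℤ) ∣ a' - a then
        ((Real.pi ^ 2 * x / (2 * (Nat.lcm q q' : ℕ)) : ℝ) : ℂ) *
          (fej x (Nat.lcm q q') (n0 q q') - 1) else 0) +
        ((Real.pi ^ 2 * x / (2 * q * q') *
          ∑ r ∈ (Nat.gcd q q').divisors.filter (fun r => R < r), ram r (a' - a) : ℝ) : ℂ) := by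
  have hg : 1 ≤ Nat.gcd q q' := Nat.gcd_pos_of_pos_left _ hq
  have hsum := ram_sum (Nat.gcd q q') hg (a' - a)
  have hsplit : ∑ r ∈ (Nat.gcd q q').divisors.filter (fun r => R < r), ram r (a' - a)
      = (∑ r ∈ (Nat.gcd q q').divisors, ram r (a' - a)) -
        ∑ r ∈ (Nat.gcd q q').divisors.filter (fun r => r ≤ R), ram r (a' - a) := by
    have h4 := Finset.sum_filter_add_sum_filter_not (Nat.gcd q q').divisors (fun r => r ≤ R)
      (fun r => ram r (a' - a))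
    have h5 : (Nat.gcd q q').divisors.filter (fun r => ¬ r ≤ R)
        = (Nat.gcd q q').divisors.filter (fun r => R < r) := by
      refine Finset.filter_congr fun r _ => ?_
      exact not_le
    rw [h5] at h4
    linarith
  by_cases hd : ((Nat.gcd q q' : ℕ) : ℤ) ∣ a' - a
  · rw [if_pos hd]
    have h4 := gram_in x J R q q' hx hJ hq hq' hdiv h1 h2 h3 a a' (n0 q q') (hn0 hd).1 (hn0 hd).2
    rw [h4, hsplit, hsum, if_pos hd]
    have hgl : ((Nat.gcd q q' : ℕ) : ℝ) * (Nat.lcm q q' : ℕ) = q * q' := by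
      exact_mod_cast Nat.gcd_mul_lcm q q'
    have hq0 : (q : ℝ) ≠ 0 := by
      have : (1 : ℝ) ≤ q := by exact_mod_cast hq
      linarith
    have hq0' : (q' : ℝ) ≠ 0 := by
      have : (1 : ℝ) ≤ q' := by exact_mod_cast hq'
      linarith
    have hl0 : ((Nat.lcm q q' : ℕ) : ℝ) ≠ 0 := by
      have : Nat.lcm q q' ≠ 0 := Nat.lcm_ne_zero (by omega) (by omega)
      exact_mod_cast this
    have h6 : Real.pi ^ 2 * x / (2 * q * q') * ((Nat.gcd q q' : ℕ) : ℝ)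
        = Real.pi ^ 2 * x / (2 * (Nat.lcm q q' : ℕ)) := by
      rw [div_mul_eq_mul_div, div_eq_div_iff (by positivity) (by positivity)]
      linear_combination (2 * Real.pi ^ 2 * x) * hgl
    rw [mul_sub (Real.pi ^ 2 * (x : ℝ) / (2 * q * q')), h6]
    push_cast
    ring
  · rw [if_neg hd]
    have h4 := gram_out x J R q q' hx hJ hq hq' hdiv h1 h2 h3 a a' hd
    rw [h4, hsplit, hsum, if_neg hd]
    push_cast
    ring

/-- the numerical part -/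
private theorem Crs_num (κ : ℝ) (h0 : 0 ≤ κ) (h1 : κ < 1 / 200) : ∃ x0 : ℕ, ∀ x : ℕ, x0 ≤ x →
    1 ≤ x ∧ 1 ≤ RR x ∧
    (∀ Q : ℕ, 1 ≤ Q → (Q : ℝ) ≤ (x : ℝ) ^ ((101 : ℝ) / 200 - κ) →
      2 * Q * RR x ≤ 2 * x ∧
      100 * (Q : ℝ) ^ ((2 : ℝ) - 1 / 50) ≤ (x : ℝ) ^ (1 - 2 * κ - (1 / 200 - κ) / 60) / 2) ∧
    RR x * RR x ≤ 2 * x ∧
    ∀ h : ℤ, h ≠ 0 → |h| ≤ x →
      100 * x * (tau h.natAbs : ℝ) / (RR x : ℝ) ≤
        (x : ℝ) ^ (1 - 2 * κ - (1 / 200 - κ) / 60) / 2 := by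
  obtain ⟨C, hC1, hC⟩ := Pool.Agent.H92.EH.div_bound (1 / 1000) (by norm_num)
  have hε : 0 < 1 / 200 - κ := by linarith
  have hδ : 0 < 1 / 50 - 1 / 1000 - 2 * κ - (1 / 200 - κ) / 60 := by linarith
  have ht1 : Filter.Tendsto (fun x : ℕ => ((x : ℝ)) ^ ((1 / 200 - κ) / 300)) Filter.atTop
      Filter.atTop :=
    (tendsto_rpow_atTop (by positivity)).comp tendsto_natCast_atTop_atTop
  have ht2 : Filter.Tendsto (fun x : ℕ => ((x : ℝ)) ^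
      (1 / 50 - 1 / 1000 - 2 * κ - (1 / 200 - κ) / 60)) Filter.atTop Filter.atTop :=
    (tendsto_rpow_atTop hδ).comp tendsto_natCast_atTop_atTop
  obtain ⟨X1, hX1⟩ := Filter.eventually_atTop.1 (ht1.eventually_ge_atTop 200)
  obtain ⟨X2, hX2⟩ := Filter.eventually_atTop.1 (ht2.eventually_ge_atTop (400 * C))
  refine ⟨max 1 (max X1 X2), fun x hx => ?_⟩
  have hx1 : 1 ≤ x := (le_max_left _ _).trans hx
  have hxX1 : X1 ≤ x := ((le_max_left _ _).trans (le_max_right _ _)).trans hx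
  have hxX2 : X2 ≤ x := ((le_max_right _ _).trans (le_max_right _ _)).trans hx
  have hxr : (1 : ℝ) ≤ x := by exact_mod_cast hx1
  have hxpos : (0 : ℝ) < x := by linarith
  have b1 := hX1 x hxX1
  have b2 := hX2 x hxX2
  have hr1 : (1 : ℝ) ≤ (x : ℝ) ^ ((1 : ℝ) / 50) := Real.one_le_rpow hxr (by norm_num)
  have hR1 : 1 ≤ RR x := Nat.one_le_floor_iff _ |>.2 hr1
  have hRle : (RR x : ℝ) ≤ (x : ℝ) ^ ((1 : ℝ) / 50) :=
    Nat.floor_le (by positivity)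
  have hRge : (x : ℝ) ^ ((1 : ℝ) / 50) / 2 ≤ (RR x : ℝ) := by
    have h1 : (x : ℝ) ^ ((1 : ℝ) / 50) < (RR x : ℝ) + 1 :=
      Nat.lt_floor_add_one ((x : ℝ) ^ ((1 : ℝ) / 50))
    have h2 : (1 : ℝ) ≤ (RR x : ℝ) := by exact_mod_cast hR1
    linarith
  refine ⟨hx1, hR1, ?_, ?_, ?_⟩
  · intro Q hQ1 hQ
    have hQr : (1 : ℝ) ≤ Q := by exact_mod_cast hQ1
    constructor
    · have h1 : (Q : ℝ) * (RR x : ℝ) ≤ x := by
        calc (Q : ℝ) * (RR x : ℝ)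
            ≤ (x : ℝ) ^ ((101 : ℝ) / 200 - κ) * (x : ℝ) ^ ((1 : ℝ) / 50) := by gcongr
          _ = (x : ℝ) ^ ((101 : ℝ) / 200 - κ + 1 / 50) := (Real.rpow_add hxpos _ _).symm
          _ ≤ (x : ℝ) ^ (1 : ℝ) := Real.rpow_le_rpow_of_exponent_le hxr (by linarith)
          _ = x := Real.rpow_one _
      have h2 : Q * RR x ≤ x := by exact_mod_cast h1
      rw [mul_assoc]
      exact Nat.mul_le_mul_left 2 h2
    · have h1 : (Q : ℝ) ^ ((2 : ℝ) - 1 / 50) ≤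
          (x : ℝ) ^ (((101 : ℝ) / 200 - κ) * ((2 : ℝ) - 1 / 50)) := by
        calc (Q : ℝ) ^ ((2 : ℝ) - 1 / 50)
            ≤ ((x : ℝ) ^ ((101 : ℝ) / 200 - κ)) ^ ((2 : ℝ) - 1 / 50) :=
              Real.rpow_le_rpow (by positivity) hQ (by norm_num)
          _ = (x : ℝ) ^ (((101 : ℝ) / 200 - κ) * ((2 : ℝ) - 1 / 50)) :=
              (Real.rpow_mul hxpos.le _ _).symm
      have h2 : (x : ℝ) ^ (1 - 2 * κ - (1 / 200 - κ) / 60)
          = (x : ℝ) ^ (((101 : ℝ) / 200 - κ) * ((2 : ℝ) - 1 / 50)) *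
            (x : ℝ) ^ ((1 / 200 - κ) / 300) := by
        rw [← Real.rpow_add hxpos]
        congr 1
        ring
      have h3 : 0 < (x : ℝ) ^ (((101 : ℝ) / 200 - κ) * ((2 : ℝ) - 1 / 50)) := by positivity
      rw [h2]
      have h4 : (x : ℝ) ^ (((101 : ℝ) / 200 - κ) * ((2 : ℝ) - 1 / 50)) * 200 ≤
          (x : ℝ) ^ (((101 : ℝ) / 200 - κ) * ((2 : ℝ) - 1 / 50)) *
            (x : ℝ) ^ ((1 / 200 - κ) / 300) :=
        mul_le_mul_of_nonneg_left b1 h3.le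
      linarith
  · have h1 : (RR x : ℝ) * (RR x : ℝ) ≤ x := by
      calc (RR x : ℝ) * (RR x : ℝ)
          ≤ (x : ℝ) ^ ((1 : ℝ) / 50) * (x : ℝ) ^ ((1 : ℝ) / 50) := by gcongr
        _ = (x : ℝ) ^ ((1 : ℝ) / 50 + 1 / 50) := (Real.rpow_add hxpos _ _).symm
        _ ≤ (x : ℝ) ^ (1 : ℝ) := Real.rpow_le_rpow_of_exponent_le hxr (by norm_num)
        _ = x := Real.rpow_one _
    have h2 : RR x * RR x ≤ x := by
      exact_mod_cast h1
    omega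
  · intro h hh hhx
    have hnat : 1 ≤ h.natAbs := Int.natAbs_pos.2 hh
    have hle : (h.natAbs : ℝ) ≤ x := by
      have h1 : ((h.natAbs : ℕ) : ℤ) ≤ x := by
        rw [Int.natCast_natAbs]
        exact hhx
      exact_mod_cast h1
    have ht : (tau h.natAbs : ℝ) ≤ C * (x : ℝ) ^ ((1 : ℝ) / 1000) := by
      refine (hC h.natAbs hnat).trans ?_
      exact mul_le_mul_of_nonneg_left
        (Real.rpow_le_rpow (Nat.cast_nonneg _) hle (by norm_num)) (by linarith)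
    have hRpos : 0 < (RR x : ℝ) := by
      have : (1 : ℝ) ≤ (RR x : ℝ) := by exact_mod_cast hR1
      linarith
    rw [div_le_iff₀ hRpos]
    have e1 : (x : ℝ) ^ (1 - 2 * κ - (1 / 200 - κ) / 60) * (x : ℝ) ^ ((1 : ℝ) / 50)
        = x * (x : ℝ) ^ ((1 : ℝ) / 1000) *
          (x : ℝ) ^ (1 / 50 - 1 / 1000 - 2 * κ - (1 / 200 - κ) / 60) := by
      have e2 : (x : ℝ) * (x : ℝ) ^ ((1 : ℝ) / 1000) *
          (x : ℝ) ^ (1 / 50 - 1 / 1000 - 2 * κ - (1 / 200 - κ) / 60)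
          = (x : ℝ) ^ (1 : ℝ) * (x : ℝ) ^ ((1 : ℝ) / 1000) *
            (x : ℝ) ^ (1 / 50 - 1 / 1000 - 2 * κ - (1 / 200 - κ) / 60) := by
        rw [Real.rpow_one]
      rw [e2, ← Real.rpow_add hxpos, ← Real.rpow_add hxpos, ← Real.rpow_add hxpos]
      congr 1
      ring
    have e3 : 0 < (x : ℝ) * (x : ℝ) ^ ((1 : ℝ) / 1000) := by positivity
    have e4 : (x : ℝ) * (x : ℝ) ^ ((1 : ℝ) / 1000) * (400 * C) ≤
        x * (x : ℝ) ^ ((1 : ℝ) / 1000) *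
          (x : ℝ) ^ (1 / 50 - 1 / 1000 - 2 * κ - (1 / 200 - κ) / 60) :=
      mul_le_mul_of_nonneg_left b2 e3.le
    have e5 : 100 * (x : ℝ) * (tau h.natAbs : ℝ) ≤ 100 * x * (C * (x : ℝ) ^ ((1 : ℝ) / 1000)) :=
      mul_le_mul_of_nonneg_left ht (by positivity)
    have e6 : (x : ℝ) ^ (1 - 2 * κ - (1 / 200 - κ) / 60) / 2 * ((x : ℝ) ^ ((1 : ℝ) / 50) / 2) ≤
        (x : ℝ) ^ (1 - 2 * κ - (1 / 200 - κ) / 60) / 2 * (RR x : ℝ) :=
      mul_le_mul_of_nonneg_left hRge (by positivity)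
    nlinarith [e1, e4, e5, e6]

theorem crs (κ : ℝ) (h0 : 0 ≤ κ) (h1 : κ < 1 / 200) : ∃ x0 : ℕ, ∀ x Q J : ℕ, x0 ≤ x → 1 ≤ Q →
    1 ≤ J → (Q : ℝ) ≤ (x : ℝ) ^ ((101 : ℝ) / 200 - κ) →
    (∀ m, 1 ≤ m → m ≤ 4 * Q ^ 2 → m ∣ 2 * x * J) →
    ∀ a a' : ℤ, a ≠ a' → |a| ≤ x → |a'| ≤ x → |a' - a| ≤ x →
    ∀ c c' : ℕ → ℝ, (∀ q, |c q| ≤ 1) → (∀ q, |c' q| ≤ 1) →
    |∑ n ∈ RW x J, ww x J n * (SS (RR x) Q c a n * SS (RR x) Q c' a' n)| ≤
      (x : ℝ) ^ (1 - 2 * κ - (1 / 200 - κ) / 60) := by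
  obtain ⟨X1, hX1⟩ := Crs_num κ h0 h1
  obtain ⟨X2, hX2⟩ := xk_bound
  refine ⟨max X1 X2, fun x Q J hx hQ1 hJ hQ hdiv a a' haa ha ha' hd c c' hc hc' => ?_⟩
  obtain ⟨hx1, hR1, hnQ, hRR, hτ⟩ := hX1 x ((le_max_left _ _).trans hx)
  obtain ⟨hQR, hQn⟩ := hnQ Q hQ1 hQ
  set R : ℕ := RR x with hR
  obtain ⟨n0, hn0⟩ := Crs_n0 a a'
  have hQ' : (Q : ℝ) ≤ (x : ℝ) ^ ((101 : ℝ) / 200) := by
    refine hQ.trans (Real.rpow_le_rpow_of_exponent_le ?_ (by linarith))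
    exact_mod_cast hx1
  have hxk := hX2 x Q ((le_max_right _ _).trans hx) hQ1 hQ' a a' haa ha ha' hd c c' hc hc' n0 hn0
  have hh : a' - a ≠ 0 := sub_ne_zero.2 haa.symm
  have hcr := cross_ram x Q R hQ1 hR1 c c' hc hc' (a' - a) hh
  have hτ' := hτ (a' - a) hh hd
  set Y : ℝ := ∑ q ∈ Ioc Q (2 * Q), ∑ q' ∈ Ioc Q (2 * Q), c q * c' q' *
    (Real.pi ^ 2 * x / (2 * q * q')) *
        ∑ r ∈ (Nat.gcd q q').divisors.filter (fun r => R < r), ram r (a' - a) with hY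
  have hexp : ∑ n ∈ RW x J, ww x J n * (SS R Q c a n * SS R Q c' a' n) =
      ∑ q ∈ Ioc Q (2 * Q), ∑ q' ∈ Ioc Q (2 * Q), c q * c' q' *
        ∑ n ∈ RW x J, ww x J n * uu R q a n * uu R q' a' n := by
    have e1 : ∀ n ∈ RW x J, ww x J n * (SS R Q c a n * SS R Q c' a' n) =
        ∑ q ∈ Ioc Q (2 * Q), ∑ q' ∈ Ioc Q (2 * Q), c q * c' q' *
          (ww x J n * uu R q a n * uu R q' a' n) := by
      intro n _
      unfold SS
      rw [Finset.sum_mul_sum, Finset.mul_sum]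
      refine Finset.sum_congr rfl fun q _ => ?_
      rw [Finset.mul_sum]
      refine Finset.sum_congr rfl fun q' _ => ?_
      ring
    rw [Finset.sum_congr rfl e1, Finset.sum_comm]
    refine Finset.sum_congr rfl fun q _ => ?_
    rw [Finset.sum_comm]
    refine Finset.sum_congr rfl fun q' _ => ?_
    rw [Finset.mul_sum]
  have hkey : ((∑ n ∈ RW x J, ww x J n * (SS R Q c a n * SS R Q c' a' n) : ℝ) : ℂ) =
      XK x Q c c' a a' n0 + (Y : ℂ) := by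
    rw [hexp, hY, XK]
    push_cast
    rw [← Finset.sum_add_distrib]
    refine Finset.sum_congr rfl fun q hq => ?_
    rw [← Finset.sum_add_distrib]
    refine Finset.sum_congr rfl fun q' hq' => ?_
    rw [mem_Ioc] at hq hq'
    have hent := Crs_entry x J R q q' hx1 hJ (by omega) (by omega)
      (fun m hm1 hm2 => hdiv m hm1 (hm2.trans (by nlinarith [hq.2, hq'.2])))
      (le_trans (Nat.mul_le_mul_right R hq.2) hQR) (le_trans (Nat.mul_le_mul_right R hq'.2) hQR)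
      hRR a a' n0 (hn0 q q')
    push_cast at hent
    rw [hent]
    split_ifs
    · ring
    · ring
  have h1 : |∑ n ∈ RW x J, ww x J n * (SS R Q c a n * SS R Q c' a' n)| =
      ‖((∑ n ∈ RW x J, ww x J n * (SS R Q c a n * SS R Q c' a' n) : ℝ) : ℂ)‖ := by
    rw [Complex.norm_real, Real.norm_eq_abs]
  rw [h1, hkey]
  calc ‖XK x Q c c' a a' n0 + (Y : ℂ)‖ ≤ ‖XK x Q c c' a a' n0‖ + ‖(Y : ℂ)‖ := norm_add_le _ _
    _ ≤ (x : ℝ) ^ (1 - 2 * κ - (1 / 200 - κ) / 60) / 2 + (x : ℝ) ^ (1 - 2 * κ - (1 / 200 - κ) / 60) / 2 := by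
        refine add_le_add (hxk.trans hQn) ?_
        rw [Complex.norm_real, Real.norm_eq_abs]
        exact hcr.trans hτ'
    _ = (x : ℝ) ^ (1 - 2 * κ - (1 / 200 - κ) / 60) := by ring


end Pool.Agent.H35.KM
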