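import Pool.Agent.H35.KM.Defs

/-!
# Signs

`bk_sign` of KF (BkA.lean) for a selection: `cf a q = sign (∑_p u_{a,q}(p))` if `a ∈ T q`, and `0`
otherwise; exchange the sums (`T q ⊆ A`).
-/

set_option autoImplicit false

namespace Pool.Agent.H35.KM

open Finset
open Pool.Agent.H80.KF

theorem sgn (y Q R M : ℕ) (A : Finset ℤ) (T : ℕ → Finset ℤ) (hT : Sel A M T) :
    ∃ cf : ℤ → ℕ → ℝ, (∀ a q, |cf a q| ≤ 1) ∧ (∀ a q, a ∉ T q → cf a q = 0) ∧
      ∑ q ∈ Ioc Q (2 * Q), ∑ a ∈ T q, |∑ p ∈ PX y, uu R q a p| =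
        ∑ p ∈ PX y, ∑ a ∈ A, SS R Q (cf a) a p := by
  classical
  refine ⟨fun a q => if a ∈ T q then
    (if 0 ≤ ∑ p ∈ PX y, uu R q a p then 1 else -1) else 0, ?_, ?_, ?_⟩
  · intro a q
    dsimp only
    split_ifs <;> simp
  · intro a q h
    exact if_neg h
  · have h1 : ∀ (a : ℤ) (q : ℕ), (if a ∈ T q then |∑ p ∈ PX y, uu R q a p| else 0) =
        (if a ∈ T q then
          (if 0 ≤ ∑ p ∈ PX y, uu R q a p then (1 : ℝ) else -1) else 0) *
          ∑ p ∈ PX y, uu R q a p := by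
      intro a q
      split_ifs with h2 h3
      · rw [one_mul, abs_of_nonneg h3]
      · rw [abs_of_neg (not_le.1 h3)]
        ring
      · rw [zero_mul]
    have h2 : ∀ q, ∑ a ∈ T q, |∑ p ∈ PX y, uu R q a p| =
        ∑ a ∈ A, if a ∈ T q then |∑ p ∈ PX y, uu R q a p| else 0 := by
      intro q
      rw [← Finset.sum_filter]
      refine Finset.sum_congr ?_ fun _ _ => rfl
      ext a
      rw [Finset.mem_filter]
      exact ⟨fun h => ⟨(hT q).1 h, h⟩, fun h => h.2⟩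
    simp only [h2]
    rw [Finset.sum_comm (s := PX y) (t := A), Finset.sum_comm]
    refine Finset.sum_congr rfl fun a _ => ?_
    unfold SS
    rw [Finset.sum_comm]
    refine Finset.sum_congr rfl fun q _ => ?_
    rw [h1, Finset.mul_sum]

end Pool.Agent.H35.KM
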