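import Pool.Agent.H35.KM.Defs
import Pool.Agent.H80.KF.StrB

/-!
# The structured part for general nonnegative numbers

`str_main` of KF (StrB.lean) for arbitrary `E d ≥ 0`, without the coprimality condition; the same
proof.
-/

set_option autoImplicit false

namespace Pool.Agent.H35.KM

open Finset
open Pool.Agent.H80.KF

private theorem StG_harm (R : ℕ) : ∑ k ∈ Icc 1 R, (1 : ℝ) / k ≤ 1 + Real.log R := by
  have h := harmonic_le_one_add_log R
  rw [harmonic_eq_sum_Icc] at h
  push_cast at h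
  simpa [one_div] using h

private theorem StG_mult (R d : ℕ) (hd : 1 ≤ d) :
    ∑ r ∈ (Icc 1 R).filter (fun r => d ∣ r), (d : ℝ) / r ≤ 1 + Real.log R := by
  have h1 : ∑ r ∈ (Icc 1 R).filter (fun r => d ∣ r), (d : ℝ) / r =
      ∑ k ∈ ((Icc 1 R).filter (fun r => d ∣ r)).image (fun r => r / d), (1 : ℝ) / k := by
    rw [Finset.sum_image]
    · refine Finset.sum_congr rfl fun r hr => ?_
      rw [mem_filter, mem_Icc] at hr
      obtain ⟨k, rfl⟩ := hr.2
      rw [Nat.mul_div_cancel_left k (by omega)]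
      have hk : (k : ℝ) ≠ 0 := by
        have : k ≠ 0 := by
          rintro rfl
          simp at hr
        exact_mod_cast this
      have hd' : (d : ℝ) ≠ 0 := by
        have : d ≠ 0 := by omega
        exact_mod_cast this
      push_cast
      field_simp
    · intro r hr s hs hrs
      rw [Finset.mem_coe, mem_filter] at hr hs
      have h2 : r / d = s / d := hrs
      rw [← Nat.div_mul_cancel hr.2, ← Nat.div_mul_cancel hs.2, h2]
  rw [h1]
  refine le_trans ?_ (StG_harm R)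
  apply Finset.sum_le_sum_of_subset_of_nonneg
  · intro k hk
    rw [mem_image] at hk
    obtain ⟨r, hr, rfl⟩ := hk
    rw [mem_filter, mem_Icc] at hr
    rw [mem_Icc]
    refine ⟨Nat.div_pos (Nat.le_of_dvd (by omega) hr.2) (by omega), (Nat.div_le_self _ _).trans hr.1.2⟩
  · intro k _ _
    positivity

theorem stg (Q R : ℕ) (hQ : 1 ≤ Q) (hR : 1 ≤ R) (E : ℕ → ℝ) (hE : ∀ d, 0 ≤ E d) :
    ∑ q ∈ Ioc Q (2 * Q), (1 / (q : ℝ)) * ∑ r ∈ q.divisors.filter (fun r => r ≤ R),
        ∑ d ∈ r.divisors, (d : ℝ) * E d ≤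
      3 * (1 + Real.log R) * ∑ d ∈ Icc 1 R, E d := by
  classical
  set G : ℕ → ℝ := fun r => ∑ d ∈ r.divisors, (d : ℝ) * E d with hG
  have hG0 : ∀ r, 0 ≤ G r := fun r => Finset.sum_nonneg fun d _ =>
    mul_nonneg (Nat.cast_nonneg d) (hE d)
  -- step A
  have hA : ∑ q ∈ Ioc Q (2 * Q), (1 / (q : ℝ)) * ∑ r ∈ q.divisors.filter (fun r => r ≤ R),
        ∑ d ∈ r.divisors, (d : ℝ) * E d =
      ∑ q ∈ Ioc Q (2 * Q), ∑ r ∈ Icc 1 R, if r ∣ q then (1 / (q : ℝ)) * G r else 0 := by
    refine Finset.sum_congr rfl fun q hq => ?_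
    rw [mem_Ioc] at hq
    rw [← Finset.sum_filter, Finset.mul_sum]
    have hset : q.divisors.filter (fun r => r ≤ R) = (Icc 1 R).filter (fun r => r ∣ q) := by
      ext r
      simp only [mem_filter, Nat.mem_divisors, mem_Icc]
      constructor
      · rintro ⟨⟨h2, h3⟩, h4⟩
        exact ⟨⟨Nat.pos_of_dvd_of_pos h2 (by omega), h4⟩, h2⟩
      · rintro ⟨⟨_, h4⟩, h2⟩
        exact ⟨⟨h2, by omega⟩, h4⟩
    rw [hset]
  -- step B
  have hB : ∑ q ∈ Ioc Q (2 * Q), ∑ r ∈ Icc 1 R, (if r ∣ q then (1 / (q : ℝ)) * G r else 0) ≤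
      ∑ r ∈ Icc 1 R, G r * (3 / r) := by
    rw [Finset.sum_comm]
    refine Finset.sum_le_sum fun r hr => ?_
    rw [mem_Icc] at hr
    rw [← Finset.sum_filter, ← Finset.sum_mul, mul_comm (∑ i ∈ _, _)]
    apply mul_le_mul_of_nonneg_left _ (hG0 r)
    rcases le_or_gt r (2 * Q) with h | h
    · exact sum_inv_mult Q r hQ hr.1 h
    · rw [Finset.sum_eq_zero]
      · positivity
      · intro q hq
        exfalso
        rw [mem_filter, mem_Ioc] at hq
        have := Nat.le_of_dvd (by omega) hq.2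
        omega
  -- step C
  have hC : ∑ r ∈ Icc 1 R, G r * (3 / r) =
      3 * ∑ d ∈ Icc 1 R, E d * ∑ r ∈ (Icc 1 R).filter (fun r => d ∣ r), (d : ℝ) / r := by
    have h1 : ∀ r ∈ Icc 1 R, G r * (3 / r) =
        ∑ d ∈ Icc 1 R, if d ∣ r then 3 * (E d * ((d : ℝ) / r)) else 0 := by
      intro r hr
      rw [mem_Icc] at hr
      rw [← Finset.sum_filter, hG]
      show (∑ d ∈ r.divisors, (d : ℝ) * E d) * (3 / r) = _
      rw [Finset.sum_mul]
      have hset : r.divisors = (Icc 1 R).filter (fun d : ℕ => d ∣ r) := by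
        ext d
        simp only [mem_filter, Nat.mem_divisors, mem_Icc]
        constructor
        · rintro ⟨h2, h3⟩
          have h5 := Nat.le_of_dvd (by omega) h2
          exact ⟨⟨Nat.pos_of_dvd_of_pos h2 (by omega), by omega⟩, h2⟩
        · rintro ⟨_, h2⟩
          exact ⟨h2, by omega⟩
      rw [hset]
      refine Finset.sum_congr rfl fun d _ => ?_
      ring
    rw [Finset.sum_congr rfl h1, Finset.sum_comm, Finset.mul_sum]
    refine Finset.sum_congr rfl fun d _ => ?_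
    rw [Finset.mul_sum, Finset.mul_sum, Finset.sum_filter]
  -- step D
  have hD : ∑ d ∈ Icc 1 R, E d * ∑ r ∈ (Icc 1 R).filter (fun r => d ∣ r), (d : ℝ) / r ≤
      ∑ d ∈ Icc 1 R, E d * (1 + Real.log R) := by
    refine Finset.sum_le_sum fun d hd => ?_
    rw [mem_Icc] at hd
    exact mul_le_mul_of_nonneg_left (StG_mult R d hd.1) (hE d)
  calc _ = _ := hA
    _ ≤ _ := hB
    _ = _ := hC
    _ ≤ 3 * ∑ d ∈ Icc 1 R, E d * (1 + Real.log R) :=
        mul_le_mul_of_nonneg_left hD (by norm_num)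
    _ = _ := by
        rw [← Finset.sum_mul]
        ring

end Pool.Agent.H35.KM
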