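import Pool.Agent.H35.KM.BVs
import Pool.Agent.H35.KM.StG
import Pool.Agent.H80.KF.StrD

/-!
# The structured part is uniform in all residues

For every modulus `q` one residue `s q` prime to `q`.  Let `b d` be a reduced class mod `d` with the
largest `|err y d b|` (`d ≥ 1`; `exists_max_image` over the units), `E d = |err y d (b d)|`.  For
`d ∣ q` the class of `s q` mod `d` is reduced, so `|err y d (s q)| ≤ E d`.  As in `str_sum` of KF
(StrD.lean): `str_id` at `y` with `a = s q`, `|μ| ≤ 1`, `stg`, `str_tail`, with `R = RR x`, and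
`bvs (c+2)`: total `≤ 3 (1 + log x) x/(log x)^{c+2} + x · 12/√R ≤ x/(log x)^c`.
-/

set_option autoImplicit false

namespace Pool.Agent.H35.KM

open Finset
open Pool.Agent.H91.EHA (err)
open Pool.Agent.H80.KF

private theorem unf_num (c : ℕ) : ∃ x0 : ℕ, ∀ x : ℕ, x0 ≤ x →
    1 ≤ ⌊(x : ℝ) ^ ((1 : ℝ) / 50)⌋₊ ∧ 12 ≤ Real.log x ∧
      24 * Real.log x ^ c ≤ Real.sqrt (⌊(x : ℝ) ^ ((1 : ℝ) / 50)⌋₊ : ℝ) := by
  have h1 : ∀ᶠ x : ℝ in Filter.atTop, ‖Real.log x ^ ((2 * c : ℕ) : ℝ)‖ ≤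
      (1 / 1152 : ℝ) * ‖x ^ ((1 : ℝ) / 50)‖ :=
    (isLittleO_log_rpow_rpow_atTop ((2 * c : ℕ) : ℝ)
      (by norm_num : (0 : ℝ) < (1 : ℝ) / 50)).def (by norm_num)
  have h2 : ∀ᶠ x : ℝ in Filter.atTop, (12 : ℝ) ≤ Real.log x :=
    Real.tendsto_log_atTop.eventually_ge_atTop 12
  have h3 : ∀ᶠ x : ℝ in Filter.atTop, (2 : ℝ) ≤ x ^ ((1 : ℝ) / 50) :=
    (tendsto_rpow_atTop (by norm_num : (0 : ℝ) < (1 : ℝ) / 50)).eventually_ge_atTop 2
  have h4 := tendsto_natCast_atTop_atTop (R := ℝ) |>.eventually (h1.and (h2.and h3))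
  obtain ⟨x0, hx0⟩ := Filter.eventually_atTop.mp h4
  refine ⟨x0, fun x hx => ?_⟩
  obtain ⟨g1, g2, g3⟩ := hx0 x hx
  set y : ℝ := (x : ℝ) ^ ((1 : ℝ) / 50) with hy
  have hL : 0 ≤ Real.log (x : ℝ) := by linarith
  have hfl : y / 2 ≤ (⌊y⌋₊ : ℝ) := by
    have := Nat.sub_one_lt_floor y
    linarith
  refine ⟨?_, g2, ?_⟩
  · exact Nat.le_floor (by push_cast; linarith)
  · rw [Real.rpow_natCast, Real.norm_of_nonneg (pow_nonneg hL _),
      Real.norm_of_nonneg (by linarith)] at g1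
    apply Real.le_sqrt_of_sq_le
    calc (24 * Real.log (x : ℝ) ^ c) ^ 2 = 576 * Real.log (x : ℝ) ^ (2 * c) := by
          rw [mul_pow, ← pow_mul, mul_comm c 2]
          norm_num
      _ ≤ 576 * (1 / 1152 * y) := by gcongr
      _ ≤ y / 2 := by linarith
      _ ≤ _ := hfl

/-- a reduced class with the largest error -/
private theorem unf_max (y : ℕ) : ∃ b : (d : ℕ) → ZMod d, (∀ d, IsUnit (b d)) ∧
    ∀ d, 1 ≤ d → ∀ a : ZMod d, IsUnit a → |err y d a| ≤ |err y d (b d)| := by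
  classical
  have h : ∀ d : ℕ, ∃ b : ZMod d, IsUnit b ∧
      (1 ≤ d → ∀ a : ZMod d, IsUnit a → |err y d a| ≤ |err y d b|) := by
    intro d
    rcases Nat.eq_zero_or_pos d with h0 | h0
    · exact ⟨1, isUnit_one, fun h => by omega⟩
    · haveI : NeZero d := ⟨by omega⟩
      have hne : ((Finset.univ : Finset (ZMod d)).filter (fun a => IsUnit a)).Nonempty :=
        ⟨1, Finset.mem_filter.2 ⟨Finset.mem_univ _, isUnit_one⟩⟩
      obtain ⟨b, hb, hmax⟩ := Finset.exists_max_image _ (fun a => |err y d a|) hne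
      exact ⟨b, (Finset.mem_filter.1 hb).2, fun _ a ha =>
        hmax a (Finset.mem_filter.2 ⟨Finset.mem_univ _, ha⟩)⟩
  choose b hb using h
  exact ⟨b, fun d => (hb d).1, fun d => (hb d).2⟩

theorem unf (c : ℕ) : ∃ x0 : ℕ, ∀ x Q : ℕ, x0 ≤ x → 1 ≤ Q → ∀ y : ℕ, y ≤ x → ∀ s : ℕ → ℤ,
    (∀ q, IsCoprime (s q) (q : ℤ)) →
    ∑ q ∈ Ioc Q (2 * Q),
      |err y q (s q : ZMod q) - ∑ p ∈ PX y, uu (RR x) q (s q) p| ≤ x / Real.log x ^ c := by
  obtain ⟨x1, h1⟩ := bvs (c + 2)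
  obtain ⟨x2, h2⟩ := unf_num c
  refine ⟨max 1 (max x1 x2), fun x Q hx hQ y hyx s hs => ?_⟩
  have hx1 : x1 ≤ x := le_trans (le_trans (le_max_left _ _) (le_max_right _ _)) hx
  have hx2 : x2 ≤ x := le_trans (le_trans (le_max_right _ _) (le_max_right _ _)) hx
  have hx3 : 1 ≤ x := le_trans (le_max_left _ _) hx
  obtain ⟨hR, hL, hsq⟩ := h2 x hx2
  obtain ⟨b, hbu, hbm⟩ := unf_max y
  have he := h1 x hx1 y hyx b hbu
  have hxr : (1 : ℝ) ≤ (x : ℝ) := by exact_mod_cast hx3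
  unfold RR at he ⊢
  set R : ℕ := ⌊(x : ℝ) ^ ((1 : ℝ) / 50)⌋₊ with hRdef
  set L : ℝ := Real.log (x : ℝ) with hLdef
  have hL0 : 0 < L := by linarith
  have hmu : ∀ n : ℕ, |(ArithmeticFunction.moebius n : ℝ)| ≤ 1 := by
    intro n
    have h := ArithmeticFunction.abs_moebius_le_one (n := n)
    exact_mod_cast h
  -- one modulus
  have hone : ∀ q ∈ Ioc Q (2 * Q),
      |err y q (s q : ZMod q) - ∑ p ∈ PX y, uu R q (s q) p| ≤
        (1 / (q : ℝ)) * ∑ r ∈ q.divisors.filter (fun r => r ≤ R), ∑ d ∈ r.divisors,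
          (d : ℝ) * |err y d (b d)| +
        (x : ℝ) * ((1 / (q : ℝ)) * ∑ r ∈ q.divisors.filter (fun r => R < r),
            (ArithmeticFunction.moebius r : ℝ) ^ 2 / (Nat.totient r : ℝ)) := by
    intro q hq
    have hq1 : 1 ≤ q := by
      have := (mem_Ioc.mp hq).1
      omega
    rw [str_id y R q hq1 (s q)]
    refine (abs_sub _ _).trans ?_
    have hT : 0 ≤ ∑ r ∈ q.divisors.filter (fun r => R < r),
        (ArithmeticFunction.moebius r : ℝ) ^ 2 / (Nat.totient r : ℝ) :=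
      sum_nonneg fun r _ => by positivity
    have hpi : (Nat.primeCounting y : ℝ) ≤ x := by
      have : Nat.primeCounting y ≤ y := by
        rw [Nat.primeCounting, Nat.primeCounting', Nat.count_eq_card_filter_range]
        refine (card_le_card (t := Icc 1 y) ?_).trans (by rw [Nat.card_Icc]; omega)
        intro p hp
        rw [mem_filter, mem_range] at hp
        rw [mem_Icc]
        exact ⟨hp.2.one_lt.le, by omega⟩
      exact_mod_cast this.trans hyx
    apply add_le_add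
    · rw [abs_mul, abs_of_nonneg (by positivity : (0 : ℝ) ≤ 1 / (q : ℝ))]
      apply mul_le_mul_of_nonneg_left _ (by positivity)
      refine (abs_sum_le_sum_abs _ _).trans (sum_le_sum fun r hr => ?_)
      refine (abs_sum_le_sum_abs _ _).trans (sum_le_sum fun d hd => ?_)
      have hrq : r ∣ q := Nat.dvd_of_mem_divisors (mem_filter.1 hr).1
      have hdr : d ∣ r := Nat.dvd_of_mem_divisors hd
      have hdq : d ∣ q := hdr.trans hrq
      have hd1 : 1 ≤ d := Nat.pos_of_dvd_of_pos hdq (by omega)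
      have hunit : IsUnit ((s q : ℤ) : ZMod d) := by
        rw [ZMod.coe_int_isUnit_iff_isCoprime]
        exact ((hs q).of_isCoprime_of_dvd_right (by exact_mod_cast hdq)).symm
      rw [abs_mul, abs_mul, Nat.abs_cast]
      apply mul_le_mul _ (hbm d hd1 _ hunit) (abs_nonneg _) (by positivity)
      calc (d : ℝ) * |(ArithmeticFunction.moebius (r / d) : ℝ)| ≤ d * 1 := by
            apply mul_le_mul_of_nonneg_left (hmu _) (by positivity)
        _ = d := mul_one _
    · rw [abs_of_nonneg (by positivity)]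
      calc (Nat.primeCounting y : ℝ) / (q : ℝ) * _ ≤ (x : ℝ) / (q : ℝ) * _ :=
            mul_le_mul_of_nonneg_right (by gcongr) hT
        _ = _ := by ring
  refine (sum_le_sum hone).trans ?_
  rw [sum_add_distrib, ← mul_sum]
  have hA := stg Q R hQ hR (fun d => |err y d (b d)|) (fun d => abs_nonneg _)
  have hB : ∑ q ∈ Ioc Q (2 * Q),
      (1 / (q : ℝ)) * ∑ r ∈ q.divisors.filter (fun r => R < r),
        (ArithmeticFunction.moebius r : ℝ) ^ 2 / (Nat.totient r : ℝ) ≤ 12 / Real.sqrt R :=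
    str_tail Q R hQ hR
  have hRx : Real.log (R : ℝ) ≤ L := by
    apply Real.log_le_log (by exact_mod_cast hR)
    calc (R : ℝ) ≤ (x : ℝ) ^ ((1 : ℝ) / 50) := Nat.floor_le (by positivity)
      _ ≤ (x : ℝ) ^ (1 : ℝ) := Real.rpow_le_rpow_of_exponent_le hxr (by norm_num)
      _ = x := Real.rpow_one _
  have hR0 : 0 ≤ Real.log (R : ℝ) := Real.log_nonneg (by exact_mod_cast hR)
  have hE0 : 0 ≤ ∑ d ∈ Icc 1 R, |err y d (b d)| := sum_nonneg fun _ _ => abs_nonneg _
  have hLc : 0 < L ^ c := by positivity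
  have hA2 : 3 * (1 + Real.log R) * ∑ d ∈ Icc 1 R, |err y d (b d)| ≤
      (x : ℝ) / L ^ c / 2 := by
    calc 3 * (1 + Real.log R) * ∑ d ∈ Icc 1 R, |err y d (b d)| ≤
        3 * (2 * L) * (x / L ^ (c + 2)) := by
          apply mul_le_mul _ he hE0 (by positivity)
          linarith
      _ = (x / L ^ c) * (6 / L) := by
          rw [pow_add]
          field_simp
          norm_num
      _ ≤ (x / L ^ c) * (1 / 2) := by
          apply mul_le_mul_of_nonneg_left _ (by positivity)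
          rw [div_le_div_iff₀ hL0 (by norm_num)]
          linarith
      _ = _ := by ring
  have hB2 : 12 / Real.sqrt (R : ℝ) ≤ 1 / (2 * L ^ c) := by
    have hs : 0 < Real.sqrt (R : ℝ) := lt_of_lt_of_le (by positivity) hsq
    rw [div_le_div_iff₀ hs (by positivity)]
    linarith
  calc _ ≤ (x : ℝ) / L ^ c / 2 + (x : ℝ) * (12 / Real.sqrt R) :=
        add_le_add (hA.trans hA2) (mul_le_mul_of_nonneg_left hB (by positivity))
    _ ≤ (x : ℝ) / L ^ c / 2 + (x : ℝ) * (1 / (2 * L ^ c)) := by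
        gcongr
    _ = (x : ℝ) / L ^ c := by
        field_simp
        ring

end Pool.Agent.H35.KM
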