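import Pool.Agent.H80.KF.Mxb

/-!
# Project KM: definitions

Elliott-Halberstam beyond `x^{1/2}` with the maximum over sets of `x^κ` residues.

`Sel A M T`: for every modulus `q` a set `T q` of at most `M` residues prime to `q`, all from `A`.
If `A_1, ..., A_M` are pairwise disjoint sets of residues, `A` is their union and `a_i(q) ∈ A_i` is a
residue with the largest error, then `T q = {a_1(q), ..., a_M(q)}` is such a selection: `#A` may be
`M x^κ`, but the diagonal of the Gram form costs only `M`.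
-/

set_option autoImplicit false

namespace Pool.Agent.H35.KM

open Finset
open Pool.Agent.H91.EHA (err)
open Pool.Agent.H80.KF

/-- the frequencies with denominator at most `RR x` are treated by Bombieri-Vinogradov -/
noncomputable def RR (x : ℕ) : ℕ := ⌊(x : ℝ) ^ ((1 : ℝ) / 50)⌋₊

/-- the level `x^{101/200 - κ}` -/
noncomputable def QQ (κ : ℝ) (x : ℕ) : ℕ := ⌊(x : ℝ) ^ ((101 : ℝ) / 200 - κ)⌋₊

/-- for every modulus `q` at most `M` residues `T q` prime to `q`, all from the set `A` -/
def Sel (A : Finset ℤ) (M : ℕ) (T : ℕ → Finset ℤ) : Prop :=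
  ∀ q, T q ⊆ A ∧ (T q).card ≤ M ∧ ∀ a ∈ T q, IsCoprime a (q : ℤ)

/-- `A` lies in `[-x, x]`, and the differences of its elements are at most `x` -/
def Adx (x : ℕ) (A : Finset ℤ) : Prop :=
  (∀ a ∈ A, |a| ≤ x) ∧ ∀ a ∈ A, ∀ a' ∈ A, |a' - a| ≤ x

/-- `∑_{r | q, r ≤ R} ∑_{d | r} τ(d)` -/
noncomputable def WW (R q : ℕ) : ℝ :=
  ∑ r ∈ q.divisors.filter (fun r => r ≤ R), ∑ d ∈ r.divisors, (tau d : ℝ)

/-- majorant of the diagonal entries of the Gram form -/
noncomputable def PS (x R q : ℕ) : ℝ :=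
  100 * x / q * (3 + 3 * (1 + Real.log R) ^ 2) * (tau q + WW R q)

end Pool.Agent.H35.KM
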