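import Pool.Agent.H35.KM.Defs

/-!
# A divisibility condition times a divisor count

`Dg_cnt S h = ∑_{e ∈ S} [e ∣ h]`, `[d ∣ h][e ∣ h] = [lcm(d,e) ∣ h]`, `ww_tail` with `m = lcm(d,e)`:
`100 x/lcm(d,e) = 100 x gcd(d,e)/(d e) ≤ (100 x/d) ∑_{g ∣ d, g ∣ e} g/e`.
`dia_Q`: `S = (Q, 2Q]`, `sum_inv_mult` (`∑_{e ∈ S, g ∣ e} 1/e ≤ 3/g` for `g ≤ 2Q`; the sum is empty
for `g > 2Q`).  `dia_R`: `S = [1,R]`, `Dg_inv_mult`.
-/

set_option autoImplicit false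

namespace Pool.Agent.H35.KM

open Finset
open Pool.Agent.H80.KF

theorem dia_gcd (x J d : ℕ) (hx : 1 ≤ x) (hJ : 1 ≤ J) (hd : 1 ≤ d) (a : ℤ) (ha : |a| ≤ x)
    (S : Finset ℕ) (hS : ∀ e ∈ S, 1 ≤ e) :
    ∑ n ∈ (RW x J).filter (fun n => n ≠ a),
        ww x J n * ((if (d : ℤ) ∣ n - a then 1 else 0) * Dg_cnt S (n - a)) ≤
      100 * x / d * ∑ g ∈ d.divisors, (g : ℝ) * ∑ e ∈ S.filter (fun e => g ∣ e), (1 : ℝ) / e := by
  have hd0 : (0 : ℝ) < d := by exact_mod_cast hd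
  have e1 : ∀ n : ℤ, ww x J n * ((if (d : ℤ) ∣ n - a then 1 else 0) * Dg_cnt S (n - a)) =
      ∑ e ∈ S, (if ((Nat.lcm d e : ℕ) : ℤ) ∣ n - a then ww x J n else 0) := by
    intro n
    rw [Dg_cnt_eq, mul_sum, mul_sum]
    apply sum_congr rfl
    intro e _
    have hl : ((Nat.lcm d e : ℕ) : ℤ) ∣ n - a ↔ (d : ℤ) ∣ n - a ∧ (e : ℤ) ∣ n - a := by
      rw [Int.natCast_dvd, Int.natCast_dvd, Int.natCast_dvd, Nat.lcm_dvd_iff]
    by_cases h1 : (d : ℤ) ∣ n - a <;> by_cases h2 : (e : ℤ) ∣ n - a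
    · rw [if_pos h1, if_pos h2, if_pos (hl.2 ⟨h1, h2⟩)]
      ring
    · rw [if_neg h2, if_neg (fun h => h2 (hl.1 h).2)]
      ring
    · rw [if_neg h1, if_neg (fun h => h1 (hl.1 h).1)]
      ring
    · rw [if_neg h1, if_neg (fun h => h1 (hl.1 h).1)]
      ring
  have e2 : ∀ e ∈ S, (∑ n ∈ (RW x J).filter (fun n => n ≠ a),
      (if ((Nat.lcm d e : ℕ) : ℤ) ∣ n - a then ww x J n else 0)) ≤
      100 * x / d * ∑ g ∈ d.divisors, (if g ∣ e then (g : ℝ) * (1 / (e : ℝ)) else 0) := by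
    intro e he
    have hd1 := hS e he
    have he0 : (0 : ℝ) < e := by exact_mod_cast hd1
    have hl1 : 1 ≤ Nat.lcm d e := Nat.lcm_pos (by omega) (by omega)
    rw [← sum_filter, filter_filter]
    refine (ww_tail x J (Nat.lcm d e) hx hJ hl1 a ha).trans ?_
    have hg1 : Nat.gcd d e ∈ d.divisors := by
      rw [Nat.mem_divisors]
      exact ⟨Nat.gcd_dvd_left d e, by omega⟩
    have h1 : (if Nat.gcd d e ∣ e then ((Nat.gcd d e : ℕ) : ℝ) * (1 / (e : ℝ)) else 0) ≤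
        ∑ g ∈ d.divisors, (if g ∣ e then (g : ℝ) * (1 / (e : ℝ)) else 0) := by
      apply single_le_sum (f := fun g : ℕ => if g ∣ e then (g : ℝ) * (1 / (e : ℝ)) else 0) _ hg1
      intro g _
      split_ifs
      · positivity
      · exact le_rfl
    rw [if_pos (Nat.gcd_dvd_right d e)] at h1
    have h2 : 100 * (x : ℝ) / ((Nat.lcm d e : ℕ) : ℝ) =
        100 * x / d * (((Nat.gcd d e : ℕ) : ℝ) * (1 / (e : ℝ))) := by
      have h3 : ((Nat.gcd d e : ℕ) : ℝ) * ((Nat.lcm d e : ℕ) : ℝ) = d * e := by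
        exact_mod_cast Nat.gcd_mul_lcm d e
      have hl0 : (0 : ℝ) < ((Nat.lcm d e : ℕ) : ℝ) := by exact_mod_cast hl1
      rw [div_eq_iff hl0.ne']
      have h4 : 100 * (x : ℝ) / d * (((Nat.gcd d e : ℕ) : ℝ) * (1 / (e : ℝ))) *
          ((Nat.lcm d e : ℕ) : ℝ) = 100 * x * ((((Nat.gcd d e : ℕ) : ℝ) *
          ((Nat.lcm d e : ℕ) : ℝ)) / (d * e)) := by
        field_simp
      rw [h4, h3, div_self (by positivity), mul_one]
    rw [h2]
    exact mul_le_mul_of_nonneg_left h1 (by positivity)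
  calc ∑ n ∈ (RW x J).filter (fun n => n ≠ a),
        ww x J n * ((if (d : ℤ) ∣ n - a then 1 else 0) * Dg_cnt S (n - a))
      = ∑ n ∈ (RW x J).filter (fun n => n ≠ a), ∑ e ∈ S,
          (if ((Nat.lcm d e : ℕ) : ℤ) ∣ n - a then ww x J n else 0) :=
        sum_congr rfl fun n _ => e1 n
    _ = ∑ e ∈ S, ∑ n ∈ (RW x J).filter (fun n => n ≠ a),
          (if ((Nat.lcm d e : ℕ) : ℤ) ∣ n - a then ww x J n else 0) := sum_comm
    _ ≤ ∑ e ∈ S, 100 * x / d * ∑ g ∈ d.divisors, (if g ∣ e then (g : ℝ) * (1 / (e : ℝ)) else 0) :=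
        sum_le_sum e2
    _ = 100 * x / d * ∑ g ∈ d.divisors, ∑ e ∈ S, (if g ∣ e then (g : ℝ) * (1 / (e : ℝ)) else 0) := by
        rw [← mul_sum, sum_comm]
    _ = 100 * x / d * ∑ g ∈ d.divisors, (g : ℝ) * ∑ e ∈ S.filter (fun e => g ∣ e), (1 : ℝ) / e := by
        congr 1
        apply sum_congr rfl
        intro g _
        rw [sum_filter, mul_sum]
        apply sum_congr rfl
        intro e _
        rw [mul_ite, mul_zero]

private theorem dia_fin (x d : ℕ) (hd : 1 ≤ d) (c : ℝ) (F : ℕ → ℝ)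
    (hF : ∀ g, 1 ≤ g → F g ≤ c / g) :
    100 * (x : ℝ) / d * ∑ g ∈ d.divisors, (g : ℝ) * F g ≤ 100 * x / d * (c * tau d) := by
  apply mul_le_mul_of_nonneg_left _ (by positivity)
  have h1 : ∑ g ∈ d.divisors, (g : ℝ) * F g ≤ ∑ _g ∈ d.divisors, c := by
    apply sum_le_sum
    intro g hg
    have hg1 : 1 ≤ g := Nat.pos_of_mem_divisors hg
    have hg0 : (0 : ℝ) < g := by exact_mod_cast hg1
    calc (g : ℝ) * F g ≤ g * (c / g) := mul_le_mul_of_nonneg_left (hF g hg1) hg0.le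
      _ = c := by field_simp
  refine h1.trans (le_of_eq ?_)
  rw [sum_const, nsmul_eq_mul, mul_comm]
  rfl

theorem dia_Q (x J d Q : ℕ) (hx : 1 ≤ x) (hJ : 1 ≤ J) (hd : 1 ≤ d) (hQ : 1 ≤ Q) (a : ℤ)
    (ha : |a| ≤ x) :
    ∑ n ∈ (RW x J).filter (fun n => n ≠ a),
        ww x J n * ((if (d : ℤ) ∣ n - a then 1 else 0) * Dg_cnt (Ioc Q (2 * Q)) (n - a)) ≤
      100 * x / d * (3 * tau d) := by
  refine (dia_gcd x J d hx hJ hd a ha (Ioc Q (2 * Q)) (fun e he => by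
    rw [mem_Ioc] at he; omega)).trans ?_
  apply dia_fin x d hd 3 (fun g => ∑ e ∈ (Ioc Q (2 * Q)).filter (fun e => g ∣ e), (1 : ℝ) / e)
  intro g hg
  by_cases hgQ : g ≤ 2 * Q
  · exact sum_inv_mult Q g hQ hg hgQ
  · have : (Ioc Q (2 * Q)).filter (fun q => g ∣ q) = ∅ := by
      apply filter_eq_empty_iff.2
      intro q hq hrq
      rw [mem_Ioc] at hq
      have := Nat.le_of_dvd (by omega) hrq
      omega
    change ∑ e ∈ (Ioc Q (2 * Q)).filter (fun e => g ∣ e), (1 : ℝ) / e ≤ 3 / g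
    rw [this, sum_empty]
    positivity

theorem dia_R (x J d R : ℕ) (hx : 1 ≤ x) (hJ : 1 ≤ J) (hd : 1 ≤ d) (hR : 1 ≤ R) (a : ℤ)
    (ha : |a| ≤ x) :
    ∑ n ∈ (RW x J).filter (fun n => n ≠ a),
        ww x J n * ((if (d : ℤ) ∣ n - a then 1 else 0) * Dg_cnt (Icc 1 R) (n - a)) ≤
      100 * x / d * ((1 + Real.log R) * tau d) := by
  refine (dia_gcd x J d hx hJ hd a ha (Icc 1 R) (fun e he => by
    rw [mem_Icc] at he; omega)).trans ?_
  apply dia_fin x d hd (1 + Real.log R)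
    (fun g => ∑ e ∈ (Icc 1 R).filter (fun e => g ∣ e), (1 : ℝ) / e)
  intro g hg
  exact Dg_inv_mult R g hg

end Pool.Agent.H35.KM
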