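import Pool.Agent.H35.KM.DiA

/-!
# One diagonal entry

`|u_{a,q}(n)| ≤ [q ∣ h] + (1/q) ∑_{r ∣ q, r ≤ R} ∑_{d ∣ r} d [d ∣ h]`, `h = n - a` (`uu`, `ram_abs`).
`SA R Q a n ≤ Dg_cnt (Ioc Q (2Q)) h + 3 (1 + log R) Dg_cnt (Icc 1 R) h` (`Dg_ss` for the coefficients
`c q = sign (uu R q a n)`, for which `SS = SA`).  By `dia_Q`, `dia_R`, for every `d ≥ 1`
`∑_n ww [d ∣ h] SA ≤ (100 x/d) τ(d) (3 + 3 (1 + log R)²)`; sum over the terms.
-/

set_option autoImplicit false

namespace Pool.Agent.H35.KM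

open Finset
open Pool.Agent.H80.KF

private theorem DiB_ww_nonneg (x J : ℕ) (n : ℤ) : 0 ≤ ww x J n := by
  unfold ww
  positivity

private theorem DiB_sa_nonneg (R Q : ℕ) (a n : ℤ) : 0 ≤ SA R Q a n := by
  unfold SA
  exact sum_nonneg fun _ _ => abs_nonneg _

private theorem DiB_uu (R q : ℕ) (a n : ℤ) : |uu R q a n| ≤
    (if (q : ℤ) ∣ n - a then 1 else 0) + ∑ r ∈ q.divisors.filter (fun r => r ≤ R),
      ∑ d ∈ r.divisors, (1 / (q : ℝ) * d) * (if (d : ℤ) ∣ n - a then (1 : ℝ) else 0) := by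
  unfold uu
  refine (abs_sub _ _).trans (add_le_add ?_ ?_)
  · split_ifs
    · rw [abs_one]
    · rw [abs_zero]
  · rw [abs_mul, abs_of_nonneg (by positivity : (0 : ℝ) ≤ 1 / (q : ℝ))]
    have h1 : |∑ r ∈ q.divisors.filter (fun r => r ≤ R), ram r (n - a)| ≤
        ∑ r ∈ q.divisors.filter (fun r => r ≤ R),
          ∑ d ∈ r.divisors, (d : ℝ) * (if (d : ℤ) ∣ n - a then (1 : ℝ) else 0) := by
      refine (abs_sum_le_sum_abs _ _).trans (sum_le_sum fun r _ => ?_)
      refine (ram_abs r (n - a)).trans (le_of_eq ?_)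
      rw [sum_filter]
      refine sum_congr rfl fun d _ => ?_
      split_ifs <;> simp
    refine (mul_le_mul_of_nonneg_left h1 (by positivity)).trans (le_of_eq ?_)
    rw [mul_sum]
    refine sum_congr rfl fun r _ => ?_
    rw [mul_sum]
    refine sum_congr rfl fun d _ => ?_
    ring

private theorem DiB_sa (R Q : ℕ) (hQ : 1 ≤ Q) (a n : ℤ) : SA R Q a n ≤
    Dg_cnt (Ioc Q (2 * Q)) (n - a) + 3 * (1 + Real.log R) * Dg_cnt (Icc 1 R) (n - a) := by
  have h := Dg_ss R Q hQ (fun q => if 0 ≤ uu R q a n then 1 else -1) (by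
    intro q
    show |if 0 ≤ uu R q a n then (1 : ℝ) else -1| ≤ 1
    split_ifs
    · rw [abs_one]
    · rw [abs_neg, abs_one]) a n
  have e : SS R Q (fun q => if 0 ≤ uu R q a n then 1 else -1) a n = SA R Q a n := by
    unfold SS SA
    refine sum_congr rfl fun q _ => ?_
    show (if 0 ≤ uu R q a n then (1 : ℝ) else -1) * uu R q a n = |uu R q a n|
    split_ifs with h0
    · rw [one_mul, abs_of_nonneg h0]
    · rw [neg_one_mul, abs_of_neg (not_le.1 h0)]
  rw [e] at h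
  exact (le_abs_self _).trans h

theorem dia_one (x J R Q q : ℕ) (hx : 1 ≤ x) (hJ : 1 ≤ J) (hR : 1 ≤ R) (hQ : 1 ≤ Q) (hq : 1 ≤ q)
    (a : ℤ) (ha : |a| ≤ x) :
    ∑ n ∈ (RW x J).filter (fun n => n ≠ a), ww x J n * (|uu R q a n| * SA R Q a n) ≤
      PS x R q := by
  set Λ : ℝ := 1 + Real.log R with hΛ
  have hΛ0 : 0 ≤ Λ := Dg_one_log R
  set S : ℤ → ℝ := fun n => Dg_cnt (Ioc Q (2 * Q)) (n - a) + 3 * Λ * Dg_cnt (Icc 1 R) (n - a)
    with hS
  have hS0 : ∀ n, 0 ≤ S n := by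
    intro n
    have h1 := Dg_cnt_nonneg (Ioc Q (2 * Q)) (n - a)
    have h2 := Dg_cnt_nonneg (Icc 1 R) (n - a)
    simp only [hS]
    positivity
  set T : ℕ → ℝ := fun d => ∑ n ∈ (RW x J).filter (fun n => n ≠ a),
    ww x J n * ((if (d : ℤ) ∣ n - a then 1 else 0) * S n) with hT
  -- one divisor
  have hTd : ∀ d : ℕ, 1 ≤ d → T d ≤ 100 * x / d * ((3 + 3 * Λ ^ 2) * tau d) := by
    intro d hd
    have h1 := dia_Q x J d Q hx hJ hd hQ a ha
    have h2 := dia_R x J d R hx hJ hd hR a ha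
    have e : T d = ∑ n ∈ (RW x J).filter (fun n => n ≠ a),
        ww x J n * ((if (d : ℤ) ∣ n - a then 1 else 0) * Dg_cnt (Ioc Q (2 * Q)) (n - a)) +
        3 * Λ * ∑ n ∈ (RW x J).filter (fun n => n ≠ a),
        ww x J n * ((if (d : ℤ) ∣ n - a then 1 else 0) * Dg_cnt (Icc 1 R) (n - a)) := by
      simp only [hT, hS]
      rw [mul_sum, ← sum_add_distrib]
      refine sum_congr rfl fun n _ => ?_
      ring
    rw [e]
    have h3 := mul_le_mul_of_nonneg_left h2 (by positivity : (0 : ℝ) ≤ 3 * Λ)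
    refine (add_le_add h1 h3).trans (le_of_eq ?_)
    rw [← hΛ]
    ring
  -- the majorant
  have hmaj : ∑ n ∈ (RW x J).filter (fun n => n ≠ a), ww x J n * (|uu R q a n| * SA R Q a n) ≤
      T q + ∑ r ∈ q.divisors.filter (fun r => r ≤ R),
        ∑ d ∈ r.divisors, (1 / (q : ℝ) * d) * T d := by
    have e : T q + ∑ r ∈ q.divisors.filter (fun r => r ≤ R),
        ∑ d ∈ r.divisors, (1 / (q : ℝ) * d) * T d =
        ∑ n ∈ (RW x J).filter (fun n => n ≠ a), ww x J n *
          (((if (q : ℤ) ∣ n - a then 1 else 0) + ∑ r ∈ q.divisors.filter (fun r => r ≤ R),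
            ∑ d ∈ r.divisors, (1 / (q : ℝ) * d) * (if (d : ℤ) ∣ n - a then (1 : ℝ) else 0)) *
              S n) := by
      have e1 : ∑ r ∈ q.divisors.filter (fun r => r ≤ R),
          ∑ d ∈ r.divisors, (1 / (q : ℝ) * d) * T d =
          ∑ n ∈ (RW x J).filter (fun n => n ≠ a), ∑ r ∈ q.divisors.filter (fun r => r ≤ R),
            ∑ d ∈ r.divisors, (1 / (q : ℝ) * d) *
              (ww x J n * ((if (d : ℤ) ∣ n - a then 1 else 0) * S n)) := by
        rw [sum_comm]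
        refine sum_congr rfl fun r _ => ?_
        rw [sum_comm]
        refine sum_congr rfl fun d _ => ?_
        rw [hT, mul_sum]
      rw [e1, hT]
      simp only
      rw [← sum_add_distrib]
      refine sum_congr rfl fun n _ => ?_
      generalize S n = s
      rw [add_mul, mul_add]
      congr 1
      rw [sum_mul, mul_sum]
      refine sum_congr rfl fun r _ => ?_
      rw [sum_mul, mul_sum]
      refine sum_congr rfl fun d _ => ?_
      ring
    rw [e]
    refine sum_le_sum fun n _ => ?_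
    refine mul_le_mul_of_nonneg_left ?_ (DiB_ww_nonneg x J n)
    refine mul_le_mul (DiB_uu R q a n) (DiB_sa R Q hQ a n) (DiB_sa_nonneg R Q a n) ?_
    exact (abs_nonneg _).trans (DiB_uu R q a n)
  refine hmaj.trans ?_
  have hq0 : (0 : ℝ) < q := by exact_mod_cast hq
  have h1 := hTd q hq
  have h2 : ∑ r ∈ q.divisors.filter (fun r => r ≤ R), ∑ d ∈ r.divisors, (1 / (q : ℝ) * d) * T d ≤
      ∑ r ∈ q.divisors.filter (fun r => r ≤ R), ∑ d ∈ r.divisors,
        (100 * x / q * (3 + 3 * Λ ^ 2)) * (tau d : ℝ) := by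
    refine sum_le_sum fun r hr => sum_le_sum fun d hd => ?_
    have hd1 : 1 ≤ d := Nat.pos_of_mem_divisors hd
    have hd0 : (0 : ℝ) < d := by exact_mod_cast hd1
    refine (mul_le_mul_of_nonneg_left (hTd d hd1) (by positivity)).trans (le_of_eq ?_)
    field_simp
  unfold PS WW
  refine (add_le_add h1 h2).trans (le_of_eq ?_)
  simp only [← mul_sum]
  rw [← hΛ]
  ring

end Pool.Agent.H35.KM
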