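import Pool.Agent.H35.KM.Defs

/-!
# The sum of the diagonal majorants

`L = log x`, `1 + log R ≤ 2L`, `3 + 3 (1 + log R)² ≤ 15 L²`.
`∑_{q ∈ (Q,2Q]} τ(q)/q = ∑_{d ≤ 2Q} ∑_{d ∣ q} 1/q ≤ ∑_{d ≤ 2Q} 3/d ≤ 3 (1 + log 2Q) ≤ 6 L`
(`sum_inv_mult`, `Dg_harm`).  `∑_q WW R q/q = ∑_{r ≤ R} (∑_{d ∣ r} τ(d)) ∑_{r ∣ q} 1/q
≤ 3 ∑_{r ≤ R} (1/r) ∑_{d ∣ r} τ(d) ≤ 3 (∑_{n ≤ R} 1/n)³ ≤ 24 L³`
(`∑_{d ∣ r} τ(d)` counts `r = n₁ n₂ n₃`; do it in two steps with `Dg_inv_mult`).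
Total `≤ 100 x · 15 L² · 30 L³`.
-/

set_option autoImplicit false

namespace Pool.Agent.H35.KM

open Finset
open Pool.Agent.H80.KF

private theorem DiC_swap (s : Finset ℕ) (N : ℕ) (hs : ∀ q ∈ s, 1 ≤ q ∧ q ≤ N) (f : ℕ → ℝ)
    (P : ℕ → Prop) [DecidablePred P] :
    ∑ q ∈ s, (∑ d ∈ q.divisors.filter P, f d) / (q : ℝ) =
      ∑ d ∈ (Icc 1 N).filter P, f d * ∑ q ∈ s.filter (fun q => d ∣ q), (1 : ℝ) / q := by
  have h1 : ∀ q ∈ s, (∑ d ∈ q.divisors.filter P, f d) / (q : ℝ) =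
      ∑ d ∈ (Icc 1 N).filter P, if d ∣ q then f d / (q : ℝ) else 0 := by
    intro q hq
    have h2 : q.divisors.filter P = ((Icc 1 N).filter P).filter (fun d => d ∣ q) := by
      ext d
      simp only [mem_filter, Nat.mem_divisors, mem_Icc]
      have h6 := hs q hq
      constructor
      · rintro ⟨⟨h3, h4⟩, h5⟩
        have h7 := Nat.le_of_dvd (Nat.pos_of_ne_zero h4) h3
        have h8 := Nat.pos_of_dvd_of_pos h3 (Nat.pos_of_ne_zero h4)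
        exact ⟨⟨⟨h8, h7.trans h6.2⟩, h5⟩, h3⟩
      · rintro ⟨⟨⟨h3, h4⟩, h5⟩, h7⟩
        exact ⟨⟨h7, by omega⟩, h5⟩
    rw [h2, sum_filter (fun d => d ∣ q), sum_div]
    refine sum_congr rfl fun d _ => ?_
    split_ifs
    · rfl
    · exact zero_div _
  rw [sum_congr rfl h1, sum_comm]
  refine sum_congr rfl fun d _ => ?_
  rw [sum_filter, mul_sum]
  refine sum_congr rfl fun q _ => ?_
  split_ifs
  · ring
  · ring

private theorem DiC_tau_eq (q : ℕ) : (tau q : ℝ) = ∑ d ∈ q.divisors.filter (fun _ => True), (1 : ℝ) := by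
  unfold tau
  rw [filter_true_of_mem (fun _ _ => trivial)]
  simp

private theorem DiC_tau (Q : ℕ) (hQ : 1 ≤ Q) :
    ∑ q ∈ Ioc Q (2 * Q), (tau q : ℝ) / q ≤ 3 * (1 + Real.log ((2 * Q : ℕ) : ℝ)) := by
  have h0 : ∑ q ∈ Ioc Q (2 * Q), (tau q : ℝ) / q =
      ∑ q ∈ Ioc Q (2 * Q), (∑ d ∈ q.divisors.filter (fun _ => True), (1 : ℝ)) / (q : ℝ) :=
    sum_congr rfl fun q _ => by rw [DiC_tau_eq]
  rw [h0, DiC_swap (Ioc Q (2 * Q)) (2 * Q) (fun q hq => by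
    rw [mem_Ioc] at hq
    omega) (fun _ => 1) (fun _ => True)]
  have h1 : ∑ d ∈ (Icc 1 (2 * Q)).filter (fun _ => True),
      (1 : ℝ) * ∑ q ∈ (Ioc Q (2 * Q)).filter (fun q => d ∣ q), (1 : ℝ) / q ≤
      ∑ d ∈ Icc 1 (2 * Q), 3 * ((1 : ℝ) / d) := by
    rw [filter_true_of_mem (fun _ _ => trivial)]
    refine sum_le_sum fun d hd => ?_
    rw [mem_Icc] at hd
    have h2 := sum_inv_mult Q d hQ hd.1 hd.2
    rw [one_mul]
    refine h2.trans (le_of_eq ?_)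
    ring
  refine h1.trans ?_
  rw [← mul_sum]
  exact mul_le_mul_of_nonneg_left (Dg_harm (2 * Q)) (by norm_num)

/-- `∑_{d ≤ R} τ(d)/d` -/
private theorem DiC_tau2 (R : ℕ) :
    ∑ d ∈ Icc 1 R, (tau d : ℝ) / d ≤ (1 + Real.log R) ^ 2 := by
  have h0 : ∑ q ∈ Icc 1 R, (tau q : ℝ) / q =
      ∑ q ∈ Icc 1 R, (∑ d ∈ q.divisors.filter (fun _ => True), (1 : ℝ)) / (q : ℝ) :=
    sum_congr rfl fun q _ => by rw [DiC_tau_eq]
  rw [h0, DiC_swap (Icc 1 R) R (fun q hq => by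
    rw [mem_Icc] at hq
    exact hq) (fun _ => 1) (fun _ => True)]
  have h1 : ∑ d ∈ (Icc 1 R).filter (fun _ => True),
      (1 : ℝ) * ∑ q ∈ (Icc 1 R).filter (fun q => d ∣ q), (1 : ℝ) / q ≤
      ∑ d ∈ Icc 1 R, (1 + Real.log R) * ((1 : ℝ) / d) := by
    rw [filter_true_of_mem (fun _ _ => trivial)]
    refine sum_le_sum fun d hd => ?_
    rw [mem_Icc] at hd
    have h2 := Dg_inv_mult R d hd.1
    rw [one_mul]
    refine h2.trans (le_of_eq ?_)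
    ring
  refine h1.trans ?_
  rw [← mul_sum, sq]
  exact mul_le_mul_of_nonneg_left (Dg_harm R) (Dg_one_log R)

private theorem DiC_tau3 (R : ℕ) :
    ∑ r ∈ Icc 1 R, (∑ d ∈ r.divisors, (tau d : ℝ)) / r ≤ (1 + Real.log R) ^ 3 := by
  have h0 : ∑ r ∈ Icc 1 R, (∑ d ∈ r.divisors, (tau d : ℝ)) / (r : ℝ) =
      ∑ r ∈ Icc 1 R, (∑ d ∈ r.divisors.filter (fun _ => True), (tau d : ℝ)) / (r : ℝ) :=
    sum_congr rfl fun q _ => by rw [filter_true_of_mem (fun _ _ => trivial)]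
  rw [h0, DiC_swap (Icc 1 R) R (fun q hq => by
    rw [mem_Icc] at hq
    exact hq) (fun d => (tau d : ℝ)) (fun _ => True)]
  have h1 : ∑ d ∈ (Icc 1 R).filter (fun _ => True),
      (tau d : ℝ) * ∑ q ∈ (Icc 1 R).filter (fun q => d ∣ q), (1 : ℝ) / q ≤
      ∑ d ∈ Icc 1 R, (1 + Real.log R) * ((tau d : ℝ) / d) := by
    rw [filter_true_of_mem (fun _ _ => trivial)]
    refine sum_le_sum fun d hd => ?_
    rw [mem_Icc] at hd
    have h2 := mul_le_mul_of_nonneg_left (Dg_inv_mult R d hd.1) (Nat.cast_nonneg (tau d) : (0 : ℝ) ≤ tau d)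
    refine h2.trans (le_of_eq ?_)
    ring
  refine h1.trans ?_
  rw [← mul_sum]
  have h2 := mul_le_mul_of_nonneg_left (DiC_tau2 R) (Dg_one_log R)
  refine h2.trans (le_of_eq ?_)
  ring

private theorem DiC_WW (Q R : ℕ) (hQ : 1 ≤ Q) :
    ∑ q ∈ Ioc Q (2 * Q), WW R q / q ≤ 3 * (1 + Real.log R) ^ 3 := by
  unfold WW
  rw [DiC_swap (Ioc Q (2 * Q)) (2 * Q) (fun q hq => by
    rw [mem_Ioc] at hq
    omega) (fun r => ∑ d ∈ r.divisors, (tau d : ℝ)) (fun r => r ≤ R)]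
  have hnn : ∀ r : ℕ, (0 : ℝ) ≤ ∑ d ∈ r.divisors, (tau d : ℝ) := fun r =>
    sum_nonneg fun d _ => Nat.cast_nonneg _
  have h1 : ∑ r ∈ (Icc 1 (2 * Q)).filter (fun r => r ≤ R), (∑ d ∈ r.divisors, (tau d : ℝ)) *
      ∑ q ∈ (Ioc Q (2 * Q)).filter (fun q => r ∣ q), (1 : ℝ) / q ≤
      ∑ r ∈ (Icc 1 (2 * Q)).filter (fun r => r ≤ R),
        3 * ((∑ d ∈ r.divisors, (tau d : ℝ)) / r) := by
    refine sum_le_sum fun r hr => ?_
    rw [mem_filter, mem_Icc] at hr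
    have h2 := mul_le_mul_of_nonneg_left (sum_inv_mult Q r hQ hr.1.1 hr.1.2) (hnn r)
    refine h2.trans (le_of_eq ?_)
    ring
  refine h1.trans ?_
  rw [← mul_sum]
  refine mul_le_mul_of_nonneg_left (le_trans ?_ (DiC_tau3 R)) (by norm_num)
  refine sum_le_sum_of_subset_of_nonneg ?_ ?_
  · intro r hr
    rw [mem_filter, mem_Icc] at hr
    rw [mem_Icc]
    exact ⟨hr.1.1, hr.2⟩
  · intro r _ _
    exact div_nonneg (hnn r) (Nat.cast_nonneg r)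

private theorem DiC_arith (x L K T W : ℝ) (hx : 0 ≤ x) (hL : 1 ≤ L) (hK0 : 0 ≤ K) (hK : K ≤ 2 * L)
    (hT : T ≤ 6 * L) (hW : W ≤ 3 * K ^ 3) :
    100 * x * (3 + 3 * K ^ 2) * (T + W) ≤ 10 ^ 5 * x * L ^ 5 := by
  have hL0 : 0 ≤ L := by linarith
  have h1 : K ^ 2 ≤ (2 * L) ^ 2 := pow_le_pow_left₀ hK0 hK 2
  have h2 : K ^ 3 ≤ (2 * L) ^ 3 := pow_le_pow_left₀ hK0 hK 3
  have h3 : (1 : ℝ) ≤ L ^ 2 := one_le_pow₀ hL
  have h4 : 3 + 3 * K ^ 2 ≤ 15 * L ^ 2 := by nlinarith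
  have h5 : L ≤ L ^ 3 := by
    have h6 : L * 1 ≤ L * L ^ 2 := mul_le_mul_of_nonneg_left h3 hL0
    calc L = L * 1 := (mul_one L).symm
      _ ≤ L * L ^ 2 := h6
      _ = L ^ 3 := by ring
  have h6 : T + W ≤ 30 * L ^ 3 := by nlinarith
  have h7 : 0 ≤ 100 * x * (3 + 3 * K ^ 2) := by positivity
  calc 100 * x * (3 + 3 * K ^ 2) * (T + W) ≤ 100 * x * (3 + 3 * K ^ 2) * (30 * L ^ 3) :=
        mul_le_mul_of_nonneg_left h6 h7
    _ = (3 + 3 * K ^ 2) * (3000 * x * L ^ 3) := by ring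
    _ ≤ (15 * L ^ 2) * (3000 * x * L ^ 3) := mul_le_mul_of_nonneg_right h4 (by positivity)
    _ = 45000 * (x * L ^ 5) := by ring
    _ ≤ 10 ^ 5 * (x * L ^ 5) := mul_le_mul_of_nonneg_right (by norm_num) (by positivity)
    _ = 10 ^ 5 * x * L ^ 5 := by ring

theorem ps_nonneg (x R q : ℕ) : 0 ≤ PS x R q := by
  unfold PS WW
  have h1 : (0 : ℝ) ≤ ∑ r ∈ q.divisors.filter (fun r => r ≤ R), ∑ d ∈ r.divisors, (tau d : ℝ) :=
    sum_nonneg fun r _ => sum_nonneg fun d _ => Nat.cast_nonneg _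
  positivity

theorem dia_tot (x Q R : ℕ) (hx : 3 ≤ x) (hQ : 1 ≤ Q) (hQx : 2 * Q ≤ x) (hR : 1 ≤ R)
    (hRx : R ≤ x) :
    ∑ q ∈ Ioc Q (2 * Q), PS x R q ≤ 10 ^ 5 * x * Real.log x ^ 5 := by
  have hxR : (3 : ℝ) ≤ x := by exact_mod_cast hx
  have hx0 : (0 : ℝ) < x := by linarith
  have hL : (1 : ℝ) ≤ Real.log x := by
    rw [Real.le_log_iff_exp_le hx0]
    have := Real.exp_one_lt_d9
    linarith
  have hR0 : (0 : ℝ) < R := by exact_mod_cast hR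
  have hK : 1 + Real.log R ≤ 2 * Real.log x := by
    have h1 : Real.log R ≤ Real.log x := Real.log_le_log hR0 (by exact_mod_cast hRx)
    linarith
  have hQ0 : (0 : ℝ) < ((2 * Q : ℕ) : ℝ) := by exact_mod_cast (by omega : 0 < 2 * Q)
  have hT := DiC_tau Q hQ
  have hT' : ∑ q ∈ Ioc Q (2 * Q), (tau q : ℝ) / q ≤ 6 * Real.log x := by
    have h1 : Real.log ((2 * Q : ℕ) : ℝ) ≤ Real.log x :=
      Real.log_le_log hQ0 (by exact_mod_cast hQx)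
    linarith
  have hW := DiC_WW Q R hQ
  have h := DiC_arith (x : ℝ) (Real.log x) (1 + Real.log R) _ _ hx0.le hL (Dg_one_log R) hK hT' hW
  refine le_trans (le_of_eq ?_) h
  rw [← sum_add_distrib, mul_sum]
  refine sum_congr rfl fun q _ => ?_
  unfold PS
  ring

end Pool.Agent.H35.KM
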