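import Pool.Agent.H35.KM.DiB
import Pool.Agent.H35.KM.DiC

/-!
# The diagonal of a selection

`cf a q = 0` unless `a ∈ T q`, `|cf| ≤ 1`: `SS(cf a)² ≤ |SS(cf a)| SA` (`ss_le_sa`) and
`|SS(cf a)| ≤ ∑_{q ∈ (Q,2Q], a ∈ T q} |u_{a,q}(n)|`.  Exchange the sums:
`∑_a ∑_n ≤ ∑_q ∑_{a ∈ T q} PS x R q ≤ M ∑_q PS x R q` (`dia_one`, `ps_nonneg`, `dia_tot`).
-/

set_option autoImplicit false

namespace Pool.Agent.H35.KM

open Finset
open Pool.Agent.H80.KF

private theorem DiD_ss (R Q : ℕ) (T : ℕ → Finset ℤ) (c : ℕ → ℝ) (hc : ∀ q, |c q| ≤ 1) (a n : ℤ)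
    (hc0 : ∀ q, a ∉ T q → c q = 0) :
    |SS R Q c a n| ≤ ∑ q ∈ Ioc Q (2 * Q), if a ∈ T q then |uu R q a n| else 0 := by
  unfold SS
  refine (Finset.abs_sum_le_sum_abs _ _).trans (Finset.sum_le_sum fun q _ => ?_)
  split_ifs with h
  · rw [abs_mul]
    have h1 := mul_le_mul_of_nonneg_right (hc q) (abs_nonneg (uu R q a n))
    rwa [one_mul] at h1
  · rw [hc0 q h, zero_mul, abs_zero]

theorem dia_sel (x Q R J M : ℕ) (hx : 3 ≤ x) (hQ : 1 ≤ Q) (hQx : 2 * Q ≤ x) (hR : 1 ≤ R)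
    (hRx : R ≤ x) (hJ : 1 ≤ J) (A : Finset ℤ) (hA : ∀ a ∈ A, |a| ≤ x) (T : ℕ → Finset ℤ)
    (hT : Sel A M T) (cf : ℤ → ℕ → ℝ) (hcf : ∀ a q, |cf a q| ≤ 1)
    (hc0 : ∀ a q, a ∉ T q → cf a q = 0) :
    ∑ a ∈ A, ∑ n ∈ (RW x J).filter (fun n => n ≠ a), ww x J n * SS R Q (cf a) a n ^ 2 ≤
      M * (10 ^ 5 * x * Real.log x ^ 5) := by
  -- pointwise
  have h1 : ∀ a n : ℤ, ww x J n * SS R Q (cf a) a n ^ 2 ≤
      ∑ q ∈ Ioc Q (2 * Q), if a ∈ T q then ww x J n * (|uu R q a n| * SA R Q a n) else 0 := by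
    intro a n
    have h2 := DiD_ss R Q T (cf a) (hcf a) a n (fun q => hc0 a q)
    have h3 := ss_le_sa R Q (cf a) (hcf a) a n
    have h4 : SS R Q (cf a) a n ^ 2 ≤
        (∑ q ∈ Ioc Q (2 * Q), if a ∈ T q then |uu R q a n| else 0) * SA R Q a n := by
      rw [← sq_abs, sq]
      exact mul_le_mul h2 h3 (abs_nonneg _) ((abs_nonneg _).trans h2)
    refine (mul_le_mul_of_nonneg_left h4 (ww_nonneg x J n)).trans (le_of_eq ?_)
    rw [Finset.sum_mul, Finset.mul_sum]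
    refine Finset.sum_congr rfl fun q _ => ?_
    split_ifs
    · rfl
    · simp
  -- exchange of the sums
  have h5 : ∑ a ∈ A, ∑ n ∈ (RW x J).filter (fun n => n ≠ a), ww x J n * SS R Q (cf a) a n ^ 2 ≤
      ∑ q ∈ Ioc Q (2 * Q), ∑ a ∈ A, if a ∈ T q then
        ∑ n ∈ (RW x J).filter (fun n => n ≠ a), ww x J n * (|uu R q a n| * SA R Q a n) else 0 := by
    refine (Finset.sum_le_sum fun a _ => Finset.sum_le_sum fun n _ => h1 a n).trans (le_of_eq ?_)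
    rw [Finset.sum_comm (s := Ioc Q (2 * Q)) (t := A)]
    refine Finset.sum_congr rfl fun a _ => ?_
    rw [Finset.sum_comm]
    refine Finset.sum_congr rfl fun q _ => ?_
    split_ifs
    · rfl
    · simp
  refine h5.trans ?_
  have h6 : ∀ q ∈ Ioc Q (2 * Q), (∑ a ∈ A, if a ∈ T q then
      ∑ n ∈ (RW x J).filter (fun n => n ≠ a), ww x J n * (|uu R q a n| * SA R Q a n) else 0) ≤
      M * PS x R q := by
    intro q hq
    rw [Finset.mem_Ioc] at hq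
    obtain ⟨hTA, hTc, _⟩ := hT q
    rw [← Finset.sum_filter]
    have h7 : A.filter (fun a => a ∈ T q) = T q := by
      ext a
      rw [Finset.mem_filter]
      exact ⟨fun h => h.2, fun h => ⟨hTA h, h⟩⟩
    rw [h7]
    refine (Finset.sum_le_card_nsmul _ _ (PS x R q) fun a ha =>
      dia_one x J R Q q (by omega) hJ hR hQ (by omega) a (hA a (hTA ha))).trans ?_
    rw [nsmul_eq_mul]
    exact mul_le_mul_of_nonneg_right (by exact_mod_cast hTc) (ps_nonneg x R q)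
  refine (Finset.sum_le_sum h6).trans ?_
  rw [← Finset.mul_sum]
  exact mul_le_mul_of_nonneg_left (dia_tot x Q R hx hQ hQx hR hRx) (Nat.cast_nonneg _)

end Pool.Agent.H35.KM
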