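import Pool.Agent.H35.KM.Mx

/-!
# Disjoint bad sets

`Good κ c x A`: for every choice of `r q ∈ A` the sum over `q ≤ x^{101/200 - κ}`, `(r q, q) = 1`, of the
largest error is at most `x/(log x)^c`.
`fam_card`: if a family `F` of pairwise disjoint bad sets had more than `L^{4c+21}` members, take `M`
of them, `M = ⌊L^{4c+21}⌋ + 1`, with bad choices `r_B`, `B ∈ F'`; `A = ⋃ B`,
`T q = {r_B q : B ∈ F', (r_B q, q) = 1}`: `#A ≤ M x^κ ≤ x^{κ + ε₀/200}`, `Sel A M T`, and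
`∑_q ∑_{a ∈ T q} ME = ∑_B ∑_q ME(r_B q) > M x/L^c` (`r_B q` are different for different `B`).
`mx (c+1)`: `M x/L^c ≤ √M x L^{c+10} + M x/L^{c+1}`, so `√M (1 - 1/L) ≤ L^{2c+10}`, `M ≤ L^{4c+21}`.
`fam_exc`: the union of a maximal disjoint family of bad sets.
-/

set_option autoImplicit false

namespace Pool.Agent.H35.KM

open Finset
open Pool.Agent.H91.EHA (err)
open Pool.Agent.H80.KF

/-- the sum over the moduli of the largest errors is small for every choice of residues from `A` -/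
def Good (κ : ℝ) (c x : ℕ) (A : Finset ℤ) : Prop :=
  ∀ r : ℕ → ℤ, (∀ q, r q ∈ A) →
    ∑ q ∈ (Icc 1 (QQ κ x)).filter (fun q : ℕ => IsCoprime (r q) (q : ℤ)),
      ME x q (r q : ZMod q) ≤ x / Real.log x ^ c

private lemma fam_ev (κ : ℝ) (h1 : κ < 1 / 200) (c : ℕ) : ∃ x0 : ℕ, ∀ x : ℕ, x0 ≤ x →
    4 ≤ Real.log x ∧ 1 ≤ x ∧
      2 * Real.log x ^ (4 * c + 21) ≤ (x : ℝ) ^ ((1 / 200 - κ) / 200) := by
  have h2 : ∀ᶠ x : ℝ in Filter.atTop, 4 ≤ Real.log x :=
    Real.tendsto_log_atTop.eventually_ge_atTop 4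
  have h3 := (isLittleO_log_rpow_rpow_atTop (((4 * c + 21 : ℕ) : ℝ))
    (by linarith : (0 : ℝ) < (1 / 200 - κ) / 200)).bound (by norm_num : (0 : ℝ) < 1 / 2)
  have h4 := tendsto_natCast_atTop_atTop.eventually (h2.and h3)
  obtain ⟨x0, hx0⟩ := Filter.eventually_atTop.1 h4
  refine ⟨max x0 1, fun x hx => ?_⟩
  obtain ⟨h5, h6⟩ := hx0 x ((le_max_left _ _).trans hx)
  refine ⟨h5, (le_max_right _ _).trans hx, ?_⟩
  rw [Real.rpow_natCast] at h6
  have h7 : (0 : ℝ) ≤ Real.log x ^ (4 * c + 21) := by positivity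
  have h8 : (0 : ℝ) ≤ (x : ℝ) ^ ((1 / 200 - κ) / 200) := by positivity
  rw [Real.norm_of_nonneg h7, Real.norm_of_nonneg h8] at h6
  linarith

/-- the numerical contradiction -/
private lemma fam_alg (x L M : ℝ) (c : ℕ) (hx : 0 < x) (hL : 4 ≤ L) (hM : 0 < M)
    (h : M * (x / L ^ c) ≤ Real.sqrt M * x * L ^ (c + 1 + 9) + M * x / L ^ (c + 1)) :
    M ≤ L ^ (4 * c + 21) := by
  have hL0 : 0 < L := by linarith
  set t := Real.sqrt M with ht
  have ht0 : 0 < t := Real.sqrt_pos.2 hM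
  have htt : t * t = M := Real.mul_self_sqrt hM.le
  rw [← htt] at h ⊢
  have h6 : t * t * L ≤ t * L ^ (2 * c + 11) + t * t := by
    have e1 : t * t * (x / L ^ c) * (L ^ (c + 1) / x) = t * t * L := by
      field_simp
      ring
    have e2 : (t * x * L ^ (c + 1 + 9) + t * t * x / L ^ (c + 1)) * (L ^ (c + 1) / x) =
        t * L ^ (2 * c + 11) + t * t := by
      have e6 : L ^ (2 * c + 11) = L ^ (c + 1 + 9) * L ^ (c + 1) := by
        rw [← pow_add]
        congr 1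
        ring
      rw [e6]
      field_simp
    have e3 : 0 ≤ L ^ (c + 1) / x := by positivity
    have e4 := mul_le_mul_of_nonneg_right h e3
    rw [e1, e2] at e4
    exact e4
  have h7 : t * (L - 1) ≤ L ^ (2 * c + 11) := by
    have e1 : t * (t * (L - 1)) ≤ t * L ^ (2 * c + 11) := by nlinarith
    exact le_of_mul_le_mul_left e1 ht0
  have h8 : 0 < t * (L - 1) := mul_pos ht0 (by linarith)
  have h9 : (t * (L - 1)) * (t * (L - 1)) ≤ L ^ (2 * c + 11) * L ^ (2 * c + 11) :=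
    mul_le_mul h7 h7 h8.le (by positivity)
  have h10 : L ^ (2 * c + 11) * L ^ (2 * c + 11) = L ^ (4 * c + 21) * L := by
    rw [← pow_add, ← pow_succ]
    congr 1
    ring
  have h11 : L ≤ (L - 1) * (L - 1) := by nlinarith
  have h12 : t * t * L ≤ L ^ (4 * c + 21) * L := by
    calc t * t * L ≤ t * t * ((L - 1) * (L - 1)) :=
          mul_le_mul_of_nonneg_left h11 (by positivity)
      _ = (t * (L - 1)) * (t * (L - 1)) := by ring
      _ ≤ L ^ (4 * c + 21) * L := by rw [← h10]; exact h9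
  exact le_of_mul_le_mul_right h12 hL0

theorem fam_card (κ : ℝ) (h0 : 0 ≤ κ) (h1 : κ < 1 / 200) (c : ℕ) : ∃ x0 : ℕ, ∀ x : ℕ, x0 ≤ x →
    ∀ F : Finset (Finset ℤ), (∀ A ∈ F, ∀ B ∈ F, A ≠ B → Disjoint A B) →
    (∀ A ∈ F, (∀ a ∈ A, |a| ≤ x) ∧ (A.card : ℝ) ≤ (x : ℝ) ^ κ ∧ ¬ Good κ c x A) →
    (F.card : ℝ) ≤ Real.log x ^ (4 * c + 21) := by
  classical
  obtain ⟨x1, hmx⟩ := mx κ h0 h1 (c + 1)
  obtain ⟨x2, hev⟩ := fam_ev κ h1 c
  refine ⟨max x1 x2, fun x hx F hdis hF => ?_⟩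
  have hmx' := hmx x ((le_max_left _ _).trans hx)
  obtain ⟨hL4, hx1, hLx⟩ := hev x ((le_max_right _ _).trans hx)
  set L := Real.log x with hL
  have hL0 : 0 < L := by linarith
  have hxr : (0 : ℝ) < x := by exact_mod_cast hx1
  by_contra hcon
  push Not at hcon
  have hLp : (0 : ℝ) ≤ L ^ (4 * c + 21) := by positivity
  set M := ⌊L ^ (4 * c + 21)⌋₊ + 1 with hM
  have hMF : M ≤ F.card := (Nat.floor_lt hLp).2 hcon
  have hM1 : 1 ≤ M := by omega
  have hMgt : L ^ (4 * c + 21) < M := by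
    rw [hM]
    push_cast
    exact Nat.lt_floor_add_one _
  have hMle : (M : ℝ) ≤ (x : ℝ) ^ ((1 / 200 - κ) / 200) := by
    have e1 : (M : ℝ) ≤ L ^ (4 * c + 21) + 1 := by
      rw [hM]
      push_cast
      have := Nat.floor_le hLp
      linarith
    have e2 : (1 : ℝ) ≤ L ^ (4 * c + 21) := one_le_pow₀ (by linarith)
    linarith
  obtain ⟨F', hF'F, hF'c⟩ := Finset.exists_subset_card_eq hMF
  have hr : ∀ B : Finset ℤ, ∃ r : ℕ → ℤ, B ∈ F' → (∀ q, r q ∈ B) ∧ x / L ^ c <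
      ∑ q ∈ (Icc 1 (QQ κ x)).filter (fun q : ℕ => IsCoprime (r q) (q : ℤ)),
        ME x q (r q : ZMod q) := by
    intro B
    by_cases hB : B ∈ F'
    · have h2 := (hF B (hF'F hB)).2.2
      unfold Good at h2
      push Not at h2
      obtain ⟨r, h3, h4⟩ := h2
      exact ⟨r, fun _ => ⟨h3, h4⟩⟩
    · exact ⟨fun _ => 0, fun h => absurd h hB⟩
  choose r hr using hr
  set A : Finset ℤ := F'.biUnion id with hA
  set T : ℕ → Finset ℤ := fun q =>
    (F'.filter (fun B => IsCoprime (r B q) (q : ℤ))).image (fun B => r B q) with hT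
  have hinj : ∀ q : ℕ, ∀ B ∈ F', ∀ B' ∈ F', r B q = r B' q → B = B' := by
    intro q B hB B' hB' h
    by_contra hne
    have h2 := hdis B (hF'F hB) B' (hF'F hB') hne
    exact Finset.disjoint_left.1 h2 ((hr B hB).1 q) (h ▸ (hr B' hB').1 q)
  have hAx : ∀ a ∈ A, |a| ≤ x := by
    intro a ha
    rw [hA, mem_biUnion] at ha
    obtain ⟨B, hB, haB⟩ := ha
    exact (hF B (hF'F hB)).1 a haB
  have hSel : Sel A M T := by
    intro q
    refine ⟨?_, ?_, ?_⟩
    · intro a ha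
      rw [hT] at ha
      simp only [mem_image, mem_filter] at ha
      obtain ⟨B, ⟨hB, -⟩, rfl⟩ := ha
      rw [hA, mem_biUnion]
      exact ⟨B, hB, (hr B hB).1 q⟩
    · rw [← hF'c]
      exact card_image_le.trans (card_filter_le _ _)
    · intro a ha
      rw [hT] at ha
      simp only [mem_image, mem_filter] at ha
      obtain ⟨B, ⟨-, hc⟩, rfl⟩ := ha
      exact hc
  have hAc : (A.card : ℝ) ≤ (x : ℝ) ^ (κ + (1 / 200 - κ) / 200) := by
    have e1 : A.card ≤ ∑ B ∈ F', B.card := card_biUnion_le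
    have e2 : (A.card : ℝ) ≤ ∑ B ∈ F', (B.card : ℝ) := by exact_mod_cast e1
    have e3 : ∑ B ∈ F', (B.card : ℝ) ≤ ∑ _B ∈ F', (x : ℝ) ^ κ :=
      sum_le_sum fun B hB => (hF B (hF'F hB)).2.1
    rw [sum_const, hF'c, nsmul_eq_mul] at e3
    rw [Real.rpow_add hxr]
    calc (A.card : ℝ) ≤ M * (x : ℝ) ^ κ := e2.trans e3
      _ ≤ (x : ℝ) ^ ((1 / 200 - κ) / 200) * (x : ℝ) ^ κ := by gcongr
      _ = (x : ℝ) ^ κ * (x : ℝ) ^ ((1 / 200 - κ) / 200) := mul_comm _ _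
  have hup := hmx' A hAx hAc M hM1 T hSel
  have hsum : ∑ q ∈ Icc 1 (QQ κ x), ∑ a ∈ T q, ME x q (a : ZMod q) =
      ∑ B ∈ F', ∑ q ∈ (Icc 1 (QQ κ x)).filter (fun q : ℕ => IsCoprime (r B q) (q : ℤ)),
        ME x q (r B q : ZMod q) := by
    have e1 : ∀ q ∈ Icc 1 (QQ κ x), ∑ a ∈ T q, ME x q (a : ZMod q) =
        ∑ B ∈ F', if IsCoprime (r B q) (q : ℤ) then ME x q (r B q : ZMod q) else 0 := by
      intro q _
      rw [hT, ← sum_filter]
      apply sum_image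
      intro B hB B' hB' h
      rw [mem_coe, mem_filter] at hB hB'
      exact hinj q B hB.1 B' hB'.1 h
    rw [sum_congr rfl e1, sum_comm]
    refine sum_congr rfl fun B _ => ?_
    rw [sum_filter]
  have hlow : (M : ℝ) * (x / L ^ c) ≤ ∑ q ∈ Icc 1 (QQ κ x), ∑ a ∈ T q, ME x q (a : ZMod q) := by
    rw [hsum, ← hF'c, ← nsmul_eq_mul]
    exact card_nsmul_le_sum F' _ _ fun B hB => (hr B hB).2.le
  have hfin := fam_alg x L M c hxr hL4 (by exact_mod_cast hM1) (hlow.trans hup)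
  linarith

theorem fam_exc (κ : ℝ) (h0 : 0 ≤ κ) (h1 : κ < 1 / 200) (c : ℕ) : ∃ x0 : ℕ, ∀ x : ℕ, x0 ≤ x →
    ∃ E : Finset ℤ, (E.card : ℝ) ≤ (x : ℝ) ^ κ * Real.log x ^ (4 * c + 21) ∧
    ∀ A : Finset ℤ, (∀ a ∈ A, |a| ≤ x) → (A.card : ℝ) ≤ (x : ℝ) ^ κ → Disjoint A E →
      Good κ c x A := by
  classical
  obtain ⟨x1, hc⟩ := fam_card κ h0 h1 c
  refine ⟨x1, fun x hx => ?_⟩
  have hcx := hc x hx
  set P : Finset (Finset ℤ) := ((Icc (-(x : ℤ)) x).powerset).filter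
    (fun A => (A.card : ℝ) ≤ (x : ℝ) ^ κ ∧ ¬ Good κ c x A) with hP
  have hmemP : ∀ A : Finset ℤ, A ∈ P ↔
      (∀ a ∈ A, |a| ≤ x) ∧ (A.card : ℝ) ≤ (x : ℝ) ^ κ ∧ ¬ Good κ c x A := by
    intro A
    rw [hP, mem_filter, mem_powerset]
    constructor
    · rintro ⟨h2, h3⟩
      refine ⟨fun a ha => ?_, h3⟩
      have := mem_Icc.1 (h2 ha)
      exact abs_le.2 ⟨this.1, this.2⟩
    · rintro ⟨h2, h3⟩
      refine ⟨fun a ha => ?_, h3⟩
      have := abs_le.1 (h2 a ha)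
      exact mem_Icc.2 ⟨this.1, this.2⟩
  set D : Finset (Finset (Finset ℤ)) := P.powerset.filter
    (fun F => ∀ A ∈ F, ∀ B ∈ F, A ≠ B → Disjoint A B) with hD
  have hDne : D.Nonempty := ⟨∅, by
    rw [hD, mem_filter]
    exact ⟨empty_mem_powerset _, fun A hA => absurd hA (notMem_empty _)⟩⟩
  obtain ⟨F, hFD, hmax⟩ := D.exists_max_image (fun F => F.card) hDne
  rw [hD, mem_filter, mem_powerset] at hFD
  obtain ⟨hFP, hFd⟩ := hFD
  have hFc := hcx F hFd (fun A hA => (hmemP A).1 (hFP hA))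
  refine ⟨F.biUnion id, ?_, ?_⟩
  · have e1 : (F.biUnion id).card ≤ ∑ B ∈ F, B.card := card_biUnion_le
    have e2 : ((F.biUnion id).card : ℝ) ≤ ∑ B ∈ F, (B.card : ℝ) := by exact_mod_cast e1
    have e3 : ∑ B ∈ F, (B.card : ℝ) ≤ ∑ _B ∈ F, (x : ℝ) ^ κ :=
      sum_le_sum fun B hB => ((hmemP B).1 (hFP hB)).2.1
    rw [sum_const, nsmul_eq_mul] at e3
    refine e2.trans (e3.trans ?_)
    rw [mul_comm]
    have : (0 : ℝ) ≤ (x : ℝ) ^ κ := by positivity
    exact mul_le_mul_of_nonneg_left hFc this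
  · intro A hA hAc hAE
    by_contra hbad
    have hAP : A ∈ P := (hmemP A).2 ⟨hA, hAc, hbad⟩
    have hAne : A.Nonempty := by
      rw [nonempty_iff_ne_empty]
      rintro rfl
      exact hbad fun r hr => absurd (hr 0) (notMem_empty _)
    have hAF : A ∉ F := by
      intro h
      obtain ⟨a, ha⟩ := hAne
      have : a ∈ F.biUnion id := mem_biUnion.2 ⟨A, h, ha⟩
      exact disjoint_left.1 hAE ha this
    have hdisj : ∀ B ∈ F, Disjoint A B := by
      intro B hB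
      rw [disjoint_left]
      intro a ha haB
      exact disjoint_left.1 hAE ha (mem_biUnion.2 ⟨B, hB, haB⟩)
    have hins : insert A F ∈ D := by
      rw [hD, mem_filter, mem_powerset]
      refine ⟨insert_subset hAP hFP, ?_⟩
      intro B hB B' hB' hne
      rw [mem_insert] at hB hB'
      rcases hB with rfl | hB
      · rcases hB' with rfl | hB'
        · exact absurd rfl hne
        · exact hdisj B' hB'
      · rcases hB' with rfl | hB'
        · exact (hdisj B hB).symm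
        · exact hFd B hB B' hB' hne
    have := hmax _ hins
    rw [card_insert_of_notMem hAF] at this
    omega

end Pool.Agent.H35.KM
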