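import Pool.Agent.H35.KM.Dy

/-!
# The maximum over the endpoint

As `few_max` of KF (Mxb.lean): `L = log x`, `G = ⌈L^{c+4}⌉`, `grid`, `phi_inv_sum` and `dy (2c+6)` at
the points `y_j = ⌊jx/G⌋ ≤ x`: the sum is at most
`(G+1)(√M x L⁴ + M x/L^{2c+6}) + M (x/G + 1) 4L²`, with `G + 1 ≤ 2 L^{c+4}`: at most
`√M x L^{c+9} + M x (2/L^{c+2} + 8/L^{c+2})`.
-/

set_option autoImplicit false

namespace Pool.Agent.H35.KM

open Finset
open Pool.Agent.H91.EHA (err)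
open Pool.Agent.H80.KF

private lemma mx_sum (κ : ℝ) (h0 : 0 ≤ κ) (x G M : ℕ) (hx : 3 ≤ x) (hG : 1 ≤ G)
    (T : ℕ → Finset ℤ) (hT : ∀ q, (T q).card ≤ M) :
    ∑ q ∈ Icc 1 (QQ κ x), ∑ a ∈ T q, ME x q (a : ZMod q) ≤
      ∑ j ∈ range (G + 1), ∑ q ∈ Icc 1 (QQ κ x), ∑ a ∈ T q, |err (j * x / G) q (a : ZMod q)| +
        M * (((x : ℝ) / G + 1) * (4 * Real.log x ^ 2)) := by
  have hx1 : 1 ≤ x := by omega
  have hxr : (1 : ℝ) ≤ x := by exact_mod_cast hx1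
  set S := Icc 1 (QQ κ x) with hS
  have hSx : S ⊆ Icc 1 x := by
    intro q hq
    rw [hS, mem_Icc] at hq
    rw [mem_Icc]
    refine ⟨hq.1, hq.2.trans ?_⟩
    have h1 : ((QQ κ x : ℕ) : ℝ) ≤ x := by
      unfold QQ
      refine (Nat.floor_le (by positivity)).trans ?_
      calc (x : ℝ) ^ ((101 : ℝ) / 200 - κ) ≤ (x : ℝ) ^ (1 : ℝ) :=
            Real.rpow_le_rpow_of_exponent_le hxr (by linarith)
        _ = x := Real.rpow_one _
    exact_mod_cast h1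
  have h4 : 0 ≤ (x : ℝ) / G + 1 := by positivity
  have h1 : ∀ q ∈ S, ∑ a ∈ T q, ME x q (a : ZMod q) ≤
      ∑ j ∈ range (G + 1), ∑ a ∈ T q, |err (j * x / G) q (a : ZMod q)| +
        M * (((x : ℝ) / G + 1) * (1 / (Nat.totient q : ℝ))) := by
    intro q hq
    have hq1 : 1 ≤ q := (mem_Icc.1 (hSx hq)).1
    have e1 : ∀ a ∈ T q, ME x q (a : ZMod q) ≤
        ∑ j ∈ range (G + 1), |err (j * x / G) q (a : ZMod q)| +
          ((x : ℝ) / G + 1) * (1 / (Nat.totient q : ℝ)) := by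
      intro a _
      unfold ME
      apply Finset.sup'_le
      intro y hy
      rw [mem_range] at hy
      have h2 := grid x G q hx1 hG hq1 (a : ZMod q) y (by omega)
      rw [mul_one_div]
      exact h2
    refine (sum_le_sum e1).trans ?_
    rw [sum_add_distrib, sum_comm, sum_const, nsmul_eq_mul]
    have e2 : ((T q).card : ℝ) ≤ M := by exact_mod_cast hT q
    have e3 : 0 ≤ ((x : ℝ) / G + 1) * (1 / (Nat.totient q : ℝ)) := by positivity
    have e4 := mul_le_mul_of_nonneg_right e2 e3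
    linarith
  refine (sum_le_sum h1).trans ?_
  rw [sum_add_distrib, sum_comm, ← mul_sum, ← mul_sum]
  have h3 : ∑ q ∈ S, 1 / (Nat.totient q : ℝ) ≤ 4 * Real.log x ^ 2 :=
    (sum_le_sum_of_subset_of_nonneg hSx (fun q _ _ => by positivity)).trans (phi_inv_sum x hx)
  have h5 : (M : ℝ) * (((x : ℝ) / G + 1) * ∑ q ∈ S, 1 / (Nat.totient q : ℝ)) ≤
      M * (((x : ℝ) / G + 1) * (4 * Real.log x ^ 2)) :=
    mul_le_mul_of_nonneg_left (mul_le_mul_of_nonneg_left h3 h4) (Nat.cast_nonneg M)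
  linarith

private lemma mx_ev (c : ℕ) : ∃ x0 : ℕ, ∀ x : ℕ, x0 ≤ x → 4 ≤ Real.log x ∧ 3 ≤ x ∧
    Real.log x ^ (c + 4) ≤ x := by
  have h1 : ∀ᶠ x : ℝ in Filter.atTop, 4 ≤ Real.log x :=
    Real.tendsto_log_atTop.eventually_ge_atTop 4
  have h2 := (isLittleO_log_rpow_rpow_atTop (((c + 4 : ℕ) : ℝ))
    (by norm_num : (0 : ℝ) < (1 : ℝ))).bound (by norm_num : (0 : ℝ) < 1)
  have h3 := tendsto_natCast_atTop_atTop.eventually (h1.and h2)
  obtain ⟨x0, hx0⟩ := Filter.eventually_atTop.1 h3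
  refine ⟨max x0 3, fun x hx => ?_⟩
  obtain ⟨h4, h5⟩ := hx0 x ((le_max_left _ _).trans hx)
  refine ⟨h4, (le_max_right _ _).trans hx, ?_⟩
  rw [Real.rpow_natCast, Real.rpow_one] at h5
  have h6 : (0 : ℝ) ≤ Real.log x ^ (c + 4) := by positivity
  rw [Real.norm_of_nonneg h6, Real.norm_of_nonneg (Nat.cast_nonneg x)] at h5
  linarith

theorem mx (κ : ℝ) (h0 : 0 ≤ κ) (h1 : κ < 1 / 200) (c : ℕ) : ∃ x0 : ℕ, ∀ x : ℕ, x0 ≤ x →
    ∀ A : Finset ℤ, (∀ a ∈ A, |a| ≤ x) →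
    (A.card : ℝ) ≤ (x : ℝ) ^ (κ + (1 / 200 - κ) / 200) →
    ∀ M : ℕ, 1 ≤ M → ∀ T : ℕ → Finset ℤ, Sel A M T →
    ∑ q ∈ Icc 1 (QQ κ x), ∑ a ∈ T q, ME x q (a : ZMod q) ≤
      Real.sqrt M * x * Real.log x ^ (c + 9) + M * x / Real.log x ^ c := by
  obtain ⟨x1, h1⟩ := dy κ h0 h1 (2 * c + 6)
  obtain ⟨x2, h2⟩ := mx_ev c
  refine ⟨max x1 x2, fun x hx A hA hAc M hM T hT => ?_⟩
  obtain ⟨hL4, hx3, hLx⟩ := h2 x ((le_max_right _ _).trans hx)
  have h1' := h1 x ((le_max_left _ _).trans hx) A hA hAc M hM T hT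
  have hTM : ∀ q, (T q).card ≤ M := fun q => (hT q).2.1
  set L := Real.log x with hLdef
  have hL0 : 0 < L := by linarith
  have hxr : (0 : ℝ) < x := by
    have : 0 < x := by omega
    exact_mod_cast this
  set G := ⌈L ^ (c + 4)⌉₊ with hGdef
  have hG1 : L ^ (c + 4) ≤ G := Nat.le_ceil _
  have hLp : (4 : ℝ) ≤ L ^ (c + 4) := by
    calc (4 : ℝ) ≤ L := hL4
      _ = L ^ 1 := (pow_one L).symm
      _ ≤ L ^ (c + 4) := pow_le_pow_right₀ (by linarith) (by omega)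
  have hLp0 : 0 < L ^ (c + 4) := by linarith
  have hG2 : (G : ℝ) < L ^ (c + 4) + 1 := Nat.ceil_lt_add_one hLp0.le
  have hG0 : (0 : ℝ) < G := by linarith
  have hG : 1 ≤ G := by exact_mod_cast hG0
  refine (mx_sum κ h0 x G M hx3 hG T hTM).trans ?_
  rw [← hLdef]
  have h4 : ∑ j ∈ range (G + 1), ∑ q ∈ Icc 1 (QQ κ x), ∑ a ∈ T q,
      |err (j * x / G) q (a : ZMod q)| ≤
      (G + 1) * (Real.sqrt M * x * L ^ 4 + M * x / L ^ (2 * c + 6)) := by
    have h5 : ∀ j ∈ range (G + 1), ∑ q ∈ Icc 1 (QQ κ x), ∑ a ∈ T q,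
        |err (j * x / G) q (a : ZMod q)| ≤
        Real.sqrt M * x * L ^ 4 + M * x / L ^ (2 * c + 6) := by
      intro j hj
      rw [mem_range] at hj
      apply h1'
      apply Nat.div_le_of_le_mul
      exact Nat.mul_le_mul_right x (by omega)
    refine (sum_le_sum h5).trans ?_
    rw [sum_const, card_range, nsmul_eq_mul]
    push_cast
    exact le_rfl
  have h6 : ((G : ℝ) + 1) ≤ 2 * L ^ (c + 4) := by linarith
  set s := Real.sqrt M with hs
  have hs0 : 0 ≤ s := Real.sqrt_nonneg _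
  have hK0 : (0 : ℝ) ≤ M := Nat.cast_nonneg _
  have h7 : ((G : ℝ) + 1) * (s * x * L ^ 4 + M * x / L ^ (2 * c + 6)) ≤
      s * x * L ^ (c + 9) + 2 * (M * x / L ^ (c + 2)) := by
    have e1 : ((G : ℝ) + 1) * (s * x * L ^ 4 + M * x / L ^ (2 * c + 6)) ≤
        (2 * L ^ (c + 4)) * (s * x * L ^ 4 + M * x / L ^ (2 * c + 6)) :=
      mul_le_mul_of_nonneg_right h6 (by positivity)
    have e2 : (2 * L ^ (c + 4)) * (s * x * L ^ 4 + M * x / L ^ (2 * c + 6)) =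
        2 * (s * x * L ^ (c + 8)) + 2 * (M * x / L ^ (c + 2)) := by
      have e3 : L ^ (2 * c + 6) = L ^ (c + 4) * L ^ (c + 2) := by
        rw [← pow_add]
        congr 1
        ring
      have e4 : L ^ (c + 8) = L ^ (c + 4) * L ^ 4 := by
        rw [← pow_add]
      rw [e3, e4]
      field_simp
    have e5 : 2 * (s * x * L ^ (c + 8)) ≤ s * x * L ^ (c + 9) := by
      have e6 : L ^ (c + 9) = L ^ (c + 8) * L := pow_succ _ _
      rw [e6]
      have e7 : 0 ≤ s * x * L ^ (c + 8) := by positivity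
      nlinarith
    linarith
  have h8 : (M : ℝ) * (((x : ℝ) / G + 1) * (4 * L ^ 2)) ≤
      8 * (M * x / L ^ (c + 2)) := by
    have e1 : (x : ℝ) / G ≤ x / L ^ (c + 4) :=
      div_le_div_of_nonneg_left hxr.le hLp0 hG1
    have e2 : (1 : ℝ) ≤ x / L ^ (c + 4) := by
      rw [le_div_iff₀ hLp0, one_mul]
      exact hLx
    have e3 : ((x : ℝ) / G + 1) ≤ 2 * (x / L ^ (c + 4)) := by linarith
    have e4 : ((x : ℝ) / G + 1) * (4 * L ^ 2) ≤ 2 * (x / L ^ (c + 4)) * (4 * L ^ 2) :=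
      mul_le_mul_of_nonneg_right e3 (by positivity)
    have e5 : 2 * ((x : ℝ) / L ^ (c + 4)) * (4 * L ^ 2) = 8 * (x / L ^ (c + 2)) := by
      have e6 : L ^ (c + 4) = L ^ (c + 2) * L ^ 2 := by
        rw [← pow_add]
      rw [e6]
      field_simp
      ring
    calc (M : ℝ) * (((x : ℝ) / G + 1) * (4 * L ^ 2)) ≤ M * (8 * (x / L ^ (c + 2))) := by
          rw [← e5]
          exact mul_le_mul_of_nonneg_left e4 hK0
      _ = 8 * (M * x / L ^ (c + 2)) := by ring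
  have h9 : 10 * (M * x / L ^ (c + 2)) ≤ M * x / L ^ c := by
    have e1 : (M : ℝ) * x / L ^ c = L ^ 2 * (M * x / L ^ (c + 2)) := by
      have e6 : L ^ (c + 2) = L ^ c * L ^ 2 := by
        rw [← pow_add]
      rw [e6]
      field_simp
    rw [e1]
    have e2 : 0 ≤ (M : ℝ) * x / L ^ (c + 2) := by positivity
    have e3 : (10 : ℝ) ≤ L ^ 2 := by nlinarith
    exact mul_le_mul_of_nonneg_right e3 e2
  linarith

end Pool.Agent.H35.KM
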